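import Mathlib
import Pool.Agent.Y920.EP.Base

set_option autoImplicit false

/-! Isolated blocks: subgroups `N(a)` of an abelian group with a symmetric membership relation. -/

namespace Pool.Agent.V7H51.NR

open Pool.Agent.Y920.EP

section grp

variable {A : Type} [CommGroup A] {Nn : A → Subgroup A}

/-- `b ∈ N(a)` is a symmetric and reflexive relation -/
structure Rel (Nn : A → Subgroup A) : Prop where
  symm : ∀ a b : A, b ∈ Nn a → a ∈ Nn b
  self : ∀ a : A, a ∈ Nn a

/-- the subgroup `N(c)` is isolated: `N(b) = N(c)` for all `b ≠ 1` in it -/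
def Isl (Nn : A → Subgroup A) (c : A) : Prop := ∀ b ∈ Nn c, b ≠ 1 → Nn b = Nn c

lemma Rel.inv (h : Rel Nn) (a : A) : Nn a⁻¹ = Nn a := by
  ext b
  constructor
  · intro hb
    exact h.symm _ _ (inv_mem_iff.1 (h.symm _ _ hb))
  · intro hb
    exact h.symm _ _ (inv_mem (h.symm _ _ hb))

lemma ne_one {c x : A} (hx : x ∉ Nn c) : x ≠ 1 := fun e => hx (e ▸ one_mem _)

lemma div_ne {c x d : A} (hx : x ∉ Nn c) (hd : d ∈ Nn c) : x / d ≠ 1 :=
  fun e => hx (by rw [div_eq_one.1 e]; exact hd)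

/-- separation -/
lemma Rel.sep (h : Rel Nn) {c x d g : A} (hc : Isl Nn c) (hx : x ∉ Nn c) (hd : d ∈ Nn c)
    (h1 : g ∈ Nn (x / d)) (h2 : g ∈ Nn c) : g = 1 := by
  by_contra hg
  have e := hc g h2 hg
  have h3 : x / d ∈ Nn g := h.symm _ _ h1
  rw [e] at h3
  exact hx (by have := mul_mem h3 hd; rwa [div_mul_cancel] at this)

lemma Rel.sep' (h : Rel Nn) {c x g : A} (hc : Isl Nn c) (hx : x ∉ Nn c)
    (h1 : g ∈ Nn x) (h2 : g ∈ Nn c) : g = 1 := by
  refine h.sep hc hx (one_mem _) (d := 1) ?_ h2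
  rwa [div_one]

lemma Rel.inv_div (h : Rel Nn) (a b : A) : Nn (a / b) = Nn (b / a) := by
  rw [← h.inv (a / b), _root_.inv_div]

lemma Rel.symm_not (h : Rel Nn) {c x : A} (hx : x ∉ Nn c) : c ∉ Nn x := fun h1 => hx (h.symm _ _ h1)

/-- the triangle `1, c, f₀` with the points `d, f, g` on its sides and the common point `W`;
only `N(c)` is isolated -/
lemma Rel.tri (h : Rel Nn) {c d f₀ f g W : A} (hc : Isl Nn c) (hd : d ∈ Nn c)
    (hd1 : d ≠ 1) (hdc : d ≠ c) (hf₀ : f₀ ∉ Nn c) (hf : f ∈ Nn f₀) (hg : g / c ∈ Nn (f₀ / c))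
    (R1 : W / d ∈ Nn (f₀ / d)) (R2 : W / f ∈ Nn (c / f)) (R3 : W ∈ Nn g) :
    ((f = 1 → W = d ∧ g = c) ∧ (g = c → f = 1)) ∧ ((f = f₀ → g = f₀) ∧ (g = f₀ → f = f₀)) := by
  have hcc : c ∈ Nn c := h.self c
  have hNd : Nn d = Nn c := hc d hd hd1
  have hW : W ∈ Nn c → W = d := fun hWc =>
    div_eq_one.1 (h.sep hc hf₀ hd R1 (div_mem hWc hd))
  have hW2 : W / f₀ ∈ Nn (f₀ / d) := by
    have := div_mem R1 (h.self (f₀ / d))
    rwa [div_div_div_cancel_right] at this
  refine ⟨⟨?_, ?_⟩, ?_, ?_⟩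
  · rintro rfl
    rw [div_one, div_one] at R2
    have e := hW R2
    subst e
    refine ⟨rfl, ?_⟩
    have e3 : g ∈ Nn W := h.symm _ _ R3
    rw [hNd] at e3
    exact div_eq_one.1 (h.sep hc hf₀ hcc hg (div_mem e3 hcc))
  · rintro rfl
    have e := hW R3
    subst e
    by_contra hf1
    have hfc : f ∉ Nn g := by
      intro h1
      exact hf1 (h.sep' hc hf₀ hf h1)
    have h1 : W / g ∈ Nn (f / g) := by
      rw [h.inv_div]
      have := div_mem R2 (h.self (g / f))
      rwa [div_div_div_cancel_right] at this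
    exact hdc (div_eq_one.1 (h.sep hc hfc hcc h1 (div_mem hd hcc)))
  · rintro rfl
    have e : W = f := by
      by_contra hne
      have h1 : W / f ≠ 1 := fun e => hne (div_eq_one.1 e)
      rw [h.inv_div] at R2
      have h2 := h.symm _ _ R2
      have h3 := h.symm _ _ hW2
      have h4 : c / d ∈ Nn (W / f) := by
        have := div_mem h3 h2
        rwa [div_div_div_cancel_left] at this
      have h5 := h.symm _ _ h4
      have h6 : c / d ≠ 1 := fun e => hdc (div_eq_one.1 e).symm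
      rw [hc _ (div_mem hcc hd) h6] at h5
      exact h1 (h.sep hc hf₀ hcc R2 h5)
    subst e
    have h3 : g ∈ Nn W := h.symm _ _ R3
    have h4 : g / W ∈ Nn (W / c) := by
      have := div_mem hg (h.self (W / c))
      rwa [div_div_div_cancel_right] at this
    by_contra hne
    have h5 : g / W ≠ 1 := fun e => hne (div_eq_one.1 e)
    have h6 : W ∈ Nn (g / W) := h.symm _ _ (div_mem h3 (h.self W))
    have h7 := h.symm _ _ h4
    have h8 := div_mem h6 h7
    rw [div_div_cancel] at h8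
    exact h5 (h.sep' hc hf₀ (div_mem h3 (h.self W)) (h.symm _ _ h8))
  · rintro rfl
    have e : W = g := by
      by_contra hne
      have h1 : W / g ≠ 1 := fun e => hne (div_eq_one.1 e)
      have h2 : W / g ∈ Nn g := div_mem R3 (h.self g)
      have h3 := div_mem (h.symm _ _ h2) (h.symm _ _ hW2)
      rw [div_div_cancel] at h3
      have h4 := h.symm _ _ h3
      rw [hNd] at h4
      exact h1 (h.sep' hc hf₀ h2 h4)
    subst e
    by_contra hne
    have h1 : W / f ≠ 1 := fun e => hne (div_eq_one.1 e).symm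
    have h2 : W / f ∈ Nn W := div_mem (h.self W) hf
    have h3 := div_mem (h.symm _ _ h2) (h.self (W / f))
    rw [div_div_cancel] at h3
    have h4 := mul_mem (h.symm _ _ R2) h3
    rw [div_mul_cancel] at h4
    exact h1 (h.sep' hc hf₀ h2 (h.symm _ _ h4))

end grp

end Pool.Agent.V7H51.NR
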