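import Mathlib
import Pool.Agent.V7H51.NR.Grp

set_option autoImplicit false

/-! Isolated blocks of bad elements: bad, small and large elements (adapted from the starting
module R675.TP.Bad; only the blocks of bad elements are isolated here). -/

namespace Pool.Agent.V7H51.NR

open Pool.Agent.Y920.EP

section fld

variable {F : Type} [Field F] {A : Type} [CommGroup A] {φ : Fˣ →* A} {Nn : A → Subgroup A}

/-- `1 + y` has neither the class of `1` nor the class of `y` -/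
def Bd (φ : Fˣ →* A) (y : Fˣ) : Prop :=
  φ y ≠ 1 ∧ ∃ s : Fˣ, (s : F) = 1 + y ∧ φ s ≠ 1 ∧ φ s ≠ φ y

/-- a homomorphism `φ` from the units of a field and a symmetric relation in its target, isolated
at bad elements -/
structure TSys (φ : Fˣ →* A) (Nn : A → Subgroup A) : Prop where
  neg : φ (-1) = 1
  rel : Rel Nn
  sum : ∀ u v : Fˣ, (v : F) = 1 + u → φ v ∈ Nn (φ u)
  iso : ∀ y : Fˣ, Bd φ y → Isl Nn (φ y)

def Sml (φ : Fˣ →* A) (x : Fˣ) : Prop := ∃ s : Fˣ, (s : F) = 1 + x ∧ φ s = 1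

def Lrg (φ : Fˣ →* A) (x : Fˣ) : Prop := ∃ s : Fˣ, (s : F) = 1 + x ∧ φ s = φ x

lemma Sml.iff {x s : Fˣ} (hs : (s : F) = 1 + x) : Sml φ x ↔ φ s = 1 := by
  constructor
  · rintro ⟨t, ht, h1⟩
    rwa [Units.ext (hs.trans ht.symm)]
  · exact fun h => ⟨s, hs, h⟩

lemma Lrg.iff {x s : Fˣ} (hs : (s : F) = 1 + x) : Lrg φ x ↔ φ s = φ x := by
  constructor
  · rintro ⟨t, ht, h1⟩
    rwa [Units.ext (hs.trans ht.symm)]
  · exact fun h => ⟨s, hs, h⟩

lemma Bd.iff {x s : Fˣ} (hs : (s : F) = 1 + x) : Bd φ x ↔ φ x ≠ 1 ∧ φ s ≠ 1 ∧ φ s ≠ φ x := by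
  constructor
  · rintro ⟨h0, t, ht, h1⟩
    rw [Units.ext (hs.trans ht.symm)]
    exact ⟨h0, h1⟩
  · exact fun h => ⟨h.1, s, hs, h.2⟩

lemma not_both {x : Fˣ} (hx : φ x ≠ 1) (h1 : Sml φ x) (h2 : Lrg φ x) : False := by
  obtain ⟨s, hs, h3⟩ := h1
  rw [Lrg.iff hs, h3] at h2
  exact hx h2.symm

lemma Bd.not_sml {x : Fˣ} (hx : Bd φ x) : ¬ Sml φ x := by
  obtain ⟨h0, s, hs, h1, h2⟩ := hx
  rwa [Sml.iff hs]

lemma Bd.not_lrg {x : Fˣ} (hx : Bd φ x) : ¬ Lrg φ x := by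
  obtain ⟨h0, s, hs, h1, h2⟩ := hx
  rwa [Lrg.iff hs]

variable (h : TSys φ Nn)

include h in
/-- the sum of elements of different classes -/
lemma TSys.exists_add {x y : Fˣ} (hxy : φ x ≠ φ y) : ∃ z : Fˣ, (z : F) = x + y :=
  ⟨Units.mk0 _ (add_ne h.neg hxy), Units.val_mk0 _⟩

include h in
lemma TSys.exists_one_add {x : Fˣ} (hx : φ x ≠ 1) : ∃ z : Fˣ, (z : F) = 1 + x := by
  have := h.exists_add (x := 1) (y := x) (by rw [map_one]; exact hx.symm)
  rwa [Units.val_one] at this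

include h in
lemma TSys.cases {x : Fˣ} (hx : φ x ≠ 1) : Sml φ x ∨ Lrg φ x ∨ Bd φ x := by
  obtain ⟨s, hs⟩ := h.exists_one_add hx
  rw [Sml.iff hs, Lrg.iff hs, Bd.iff hs]
  by_cases h1 : φ s = 1
  · exact Or.inl h1
  by_cases h2 : φ s = φ x
  · exact Or.inr (Or.inl h2)
  · exact Or.inr (Or.inr ⟨hx, h1, h2⟩)

lemma one_add_inv {x s : Fˣ} (hs : (s : F) = 1 + x) : ((s / x : Fˣ) : F) = 1 + (x⁻¹ : Fˣ) := by
  rw [Units.val_div_eq_div_val, hs, Units.val_inv_eq_inv_val]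
  field_simp
  ring

lemma one_add_inv' {x s : Fˣ} (hs : (s : F) = 1 + (x⁻¹ : Fˣ)) : ((s * x : Fˣ) : F) = 1 + x := by
  rw [Units.val_mul, hs, Units.val_inv_eq_inv_val]
  field_simp
  ring

lemma lrg_iff {x : Fˣ} : Lrg φ x ↔ Sml φ x⁻¹ := by
  constructor
  · rintro ⟨s, hs, h1⟩
    exact ⟨s / x, one_add_inv hs, by rw [map_div, h1, div_self']⟩
  · rintro ⟨s, hs, h1⟩
    exact ⟨s * x, one_add_inv' hs, by rw [map_mul, h1, one_mul]⟩

lemma lrg_inv_iff {x : Fˣ} : Lrg φ x⁻¹ ↔ Sml φ x := by rw [lrg_iff, inv_inv]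

lemma Bd.inv {x : Fˣ} (hx : Bd φ x) : Bd φ x⁻¹ := by
  obtain ⟨h0, s, hs, h1, h2⟩ := hx
  refine ⟨by rw [map_inv]; simpa using h0, s / x, one_add_inv hs, ?_, ?_⟩
  · rw [map_div]
    exact fun e => h2 (div_eq_one.1 e)
  · rw [map_div, map_inv, div_eq_mul_inv]
    intro e
    exact h1 (mul_eq_right.1 e)

lemma sum_div {x y z : Fˣ} (hz : (z : F) = x + y) : ((z / x : Fˣ) : F) = 1 + (y / x : Fˣ) := by
  rw [Units.val_div_eq_div_val, hz, Units.val_div_eq_div_val]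
  field_simp

include h in
lemma TSys.sum' {x y z : Fˣ} (hz : (z : F) = x + y) : φ z / φ x ∈ Nn (φ y / φ x) := by
  have := h.sum _ _ (sum_div hz)
  rwa [map_div, map_div] at this

include h in
/-- bad elements are units with respect to elements of other blocks -/
lemma TSys.key {y s z u v w : Fˣ} (hy : Isl Nn (φ y)) (hs : (s : F) = 1 + y) (hs1 : φ s ≠ 1)
    (hs2 : φ s ≠ φ y) (hz : φ z ∉ Nn (φ y)) (hu : (u : F) = 1 + z) (hv : (v : F) = y + z)
    (hw : (w : F) = 1 + y + z) :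
    ((φ u = 1 → φ w = φ s ∧ φ v = φ y) ∧ (φ v = φ y → φ u = 1)) ∧
      ((φ u = φ z → φ v = φ z) ∧ (φ v = φ z → φ u = φ z)) := by
  have R1 := h.sum' (x := s) (y := z) (z := w) (by rw [hw, hs])
  have R2 := h.sum' (x := u) (y := y) (z := w) (by rw [hw, hu]; ring)
  have R3 := h.sum v w (by rw [hw, hv]; ring)
  exact h.rel.tri hy (h.sum y s hs) hs1 hs2 hz (h.sum z u hu) (h.sum' hv) R1 R2 R3

include h in
lemma TSys.key2 {y z : Fˣ} (hy : Bd φ y) (hz : φ z ∉ Nn (φ y)) :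
    (Sml φ z ↔ Sml φ (z / y)) ∧ (Lrg φ z ↔ Lrg φ (z / y)) ∧
      (∀ w : Fˣ, Sml φ z → (w : F) = y + z → Bd φ w) := by
  have hI := h.iso y hy
  obtain ⟨h0, s, hs, h1, h2⟩ := hy
  obtain ⟨u, hu⟩ := h.exists_one_add (ne_one hz)
  have hyz : φ y ≠ φ z := fun e => hz (e ▸ h.rel.self _)
  obtain ⟨v, hv⟩ := h.exists_add hyz
  have hsz : φ s ≠ φ z := fun e => hz (e ▸ h.sum y s hs)
  obtain ⟨w, hw⟩ := h.exists_add hsz
  rw [hs] at hw
  obtain ⟨⟨k1, k2⟩, k3, k4⟩ := h.key hI hs h1 h2 hz hu hv hw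
  have e1 : φ (v / y) = 1 ↔ φ v = φ y := by rw [map_div, div_eq_one]
  have e2 : φ (v / y) = φ (z / y) ↔ φ v = φ z := by rw [map_div, map_div, div_left_inj]
  refine ⟨?_, ?_, ?_⟩
  · rw [Sml.iff hu, Sml.iff (sum_div hv), e1]
    exact ⟨fun e => (k1 e).2, k2⟩
  · rw [Lrg.iff hu, Lrg.iff (sum_div hv), e2]
    exact ⟨k3, k4⟩
  · intro v' hsm hv'
    rw [Units.ext (hv'.trans hv.symm)]
    rw [Sml.iff hu] at hsm
    obtain ⟨k5, k6⟩ := k1 hsm
    rw [Bd.iff (s := w) (by rw [hw, hv]; ring), k5, k6]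
    exact ⟨h0, h1, h2⟩

include h in
lemma TSys.bd_div {y z : Fˣ} (hy : Bd φ y) (hz : φ z ∉ Nn (φ y)) : Bd φ z ↔ Bd φ (z / y) := by
  obtain ⟨k1, k2, -⟩ := h.key2 hy hz
  have hz1 : φ z ≠ 1 := ne_one hz
  have hzy : φ (z / y) ≠ 1 := by
    rw [map_div]
    exact div_ne hz (h.rel.self _)
  constructor
  · intro hb
    rcases h.cases hzy with h1 | h1 | h1
    · exact absurd (k1.2 h1) hb.not_sml
    · exact absurd (k2.2 h1) hb.not_lrg
    · exact h1
  · intro hb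
    rcases h.cases hz1 with h1 | h1 | h1
    · exact absurd (k1.1 h1) hb.not_sml
    · exact absurd (k2.1 h1) hb.not_lrg
    · exact h1

lemma notMem_mul {S : Subgroup A} {a b : A} (ha : a ∈ S) (hb : b ∉ S) : a * b ∉ S := fun h =>
  hb ((Subgroup.mul_mem_cancel_left S ha).1 h)

lemma notMem_mul' {S : Subgroup A} {a b : A} (ha : a ∉ S) (hb : b ∈ S) : a * b ∉ S := fun h =>
  ha ((Subgroup.mul_mem_cancel_right S hb).1 h)

lemma notMem_div {S : Subgroup A} {a b : A} (ha : a ∉ S) (hb : b ∈ S) : a / b ∉ S := fun h =>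
  ha (by have := mul_mem h hb; rwa [div_mul_cancel] at this)

include h in
/-- products of bad elements of different blocks -/
lemma TSys.bd_mul {y z : Fˣ} (hy : Bd φ y) (hz : Bd φ z) (hyz : φ z ∉ Nn (φ y)) :
    Bd φ (y * z) := by
  have h1 : φ (y * z) ∉ Nn (φ y) := by
    rw [map_mul]
    exact notMem_mul (h.rel.self _) hyz
  rw [h.bd_div hy h1, mul_div_cancel_left]
  exact hz

/-- bad elements in two blocks -/
def Two (φ : Fˣ →* A) (Nn : A → Subgroup A) : Prop :=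
  ∀ a : A, a ≠ 1 → ∃ w : Fˣ, Bd φ w ∧ φ w ∉ Nn a

include h in
lemma TSys.two_of {y z : Fˣ} (hy : Bd φ y) (hz : Bd φ z) (hyz : φ z ∉ Nn (φ y)) : Two φ Nn := by
  intro a ha
  by_contra hc
  push Not at hc
  have h1 := hc y hy
  have h2 := hc z hz
  have e := h.iso y hy a (h.rel.symm _ _ h1) ha
  rw [e] at h2
  exact hyz h2

variable (hT : Two φ Nn)

include h hT in
/-- products of bad elements -/
lemma TSys.bd_mul' {y z : Fˣ} (hy : Bd φ y) (hz : Bd φ z) (hyz : φ (y * z) ≠ 1) :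
    Bd φ (y * z) := by
  by_cases h1 : φ z ∈ Nn (φ y)
  · obtain ⟨w, hw, hwy⟩ := hT _ hy.1
    have e1 : Nn (φ z) = Nn (φ y) := h.iso y hy _ h1 hz.1
    have h2 : Bd φ (y * w) := h.bd_mul hy hw hwy
    have h3 : φ (y * w) ∉ Nn (φ y) := by
      rw [map_mul]; exact notMem_mul (h.rel.self _) hwy
    have h4 : φ z ∉ Nn (φ (y * w)) := by
      intro h5
      exact h3 (e1 ▸ h.rel.symm _ _ h5)
    have h5 : Bd φ (y * w * z) := h.bd_mul h2 hz h4
    have h6 : φ (y * z) ∈ Nn (φ y) := by rw [map_mul]; exact mul_mem (h.rel.self _) h1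
    have e2 : Nn (φ (y * z)) = Nn (φ y) := h.iso y hy _ h6 hyz
    have h7 : φ (y * w * z) ∉ Nn (φ w) := by
      have e3 : φ (y * w * z) = φ (y * z) * φ w := by
        simp only [map_mul]; exact mul_right_comm _ _ _
      rw [e3]
      refine notMem_mul' (fun h8 => ?_) (h.rel.self _)
      have := h.rel.symm _ _ h8
      rw [e2] at this
      exact hwy this
    rw [h.bd_div hw h7] at h5
    have e4 : y * w * z / w = y * z := by rw [mul_right_comm, mul_div_cancel_right]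
    rwa [e4] at h5
  · exact h.bd_mul hy hz h1

include h hT in
/-- for `t` in the kernel all `ty`, `y` bad, are small if one is -/
lemma TSys.unif {t y y' : Fˣ} (ht : φ t = 1) (hy : Bd φ y) (hy' : Bd φ y')
    (hs : Sml φ (t * y)) : Sml φ (t * y') := by
  have key : ∀ y y' : Fˣ, Bd φ y → Bd φ y' → φ y' ∉ Nn (φ y) → Sml φ (t * y) →
      Sml φ (t * y') := by
    intro y y' hy hy' hyy hs
    have hb : Bd φ (y / y') := by
      have h1 : φ y ∉ Nn (φ y') := h.rel.symm_not hyy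
      exact (h.bd_div hy' h1).1 hy
    have hq : φ (t * y) ∉ Nn (φ (y / y')) := by
      rw [map_mul, ht, one_mul]
      intro h1
      have e1 : Nn (φ (y / y')) = Nn (φ y) := (h.iso _ hb _ h1 hy.1).symm
      have h2 : φ (y / y') ∈ Nn (φ y) := e1 ▸ h.rel.self _
      have h3 := div_mem (h.rel.self (φ y)) h2
      rw [map_div, div_div_cancel] at h3
      exact hyy h3
    have h4 := (h.key2 hb hq).1.1 hs
    have e : t * y / (y / y') = t * y' := by
      rw [mul_div_assoc, div_div_cancel]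
    rwa [e] at h4
  by_cases h1 : φ y' ∈ Nn (φ y)
  · obtain ⟨w, hw, hwy⟩ := hT _ hy.1
    have e1 : Nn (φ y') = Nn (φ y) := h.iso y hy _ h1 hy'.1
    refine key w y' hw hy' ?_ (key y w hy hw hwy hs)
    rw [← e1] at hwy
    exact h.rel.symm_not hwy
  · exact key y y' hy hy' h1 hs

include h hT in
lemma TSys.unif_lrg {t y y' : Fˣ} (ht : φ t = 1) (hy : Bd φ y) (hy' : Bd φ y')
    (hs : Lrg φ (t * y)) : Lrg φ (t * y') := by
  rw [lrg_iff, mul_inv] at hs ⊢
  exact h.unif hT (by rw [map_inv, ht, inv_one]) hy.inv hy'.inv hs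

include h hT in
lemma TSys.unif_bd {t y y' : Fˣ} (ht : φ t = 1) (hy : Bd φ y) (hy' : Bd φ y')
    (hs : Bd φ (t * y)) : Bd φ (t * y') := by
  have h1 : φ (t * y') ≠ 1 := by rw [map_mul, ht, one_mul]; exact hy'.1
  rcases h.cases h1 with h2 | h2 | h2
  · exact absurd (h.unif hT ht hy' hy h2) hs.not_sml
  · exact absurd (h.unif_lrg hT ht hy' hy h2) hs.not_lrg
  · exact h2

/-- units -/
def Un (h : TSys φ Nn) (hT : Two φ Nn) : Subgroup Fˣ where
  carrier := {u | Bd φ u ∨ (φ u = 1 ∧ ∀ y, Bd φ y → Bd φ (u * y))}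
  one_mem' := Or.inr ⟨map_one φ, fun y hy => by rwa [one_mul]⟩
  mul_mem' := by
    rintro u v (hu | ⟨hu, hu'⟩) (hv | ⟨hv, hv'⟩)
    · by_cases h1 : φ (u * v) = 1
      · refine Or.inr ⟨h1, fun y hy => ?_⟩
        by_cases h2 : φ (v * y) = 1
        · obtain ⟨w, hw, hwy⟩ := hT _ hy.1
          have h3 : Bd φ (y * w) := h.bd_mul hy hw hwy
          have h4 : Bd φ (v * (y * w)) := by
            refine h.bd_mul' hT hv h3 ?_
            rw [← mul_assoc, map_mul, h2, one_mul]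
            exact hw.1
          have h5 : Bd φ (u * (v * (y * w))) := by
            refine h.bd_mul' hT hu h4 ?_
            rw [← mul_assoc, map_mul, h1, one_mul]
            exact h3.1
          have h6 : Bd φ (u * (v * (y * w)) * w⁻¹) := by
            refine h.bd_mul' hT h5 hw.inv ?_
            have e : u * (v * (y * w)) * w⁻¹ = u * v * y := by
              simp only [← mul_assoc, mul_inv_cancel_right]
            rw [e, map_mul, h1, one_mul]
            exact hy.1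
          have e : u * (v * (y * w)) * w⁻¹ = u * v * y := by
            simp only [← mul_assoc, mul_inv_cancel_right]
          rwa [e] at h6
        · have h3 := h.bd_mul' hT hv hy h2
          have h4 : Bd φ (u * (v * y)) := by
            refine h.bd_mul' hT hu h3 ?_
            rw [← mul_assoc, map_mul, h1, one_mul]
            exact hy.1
          rwa [← mul_assoc] at h4
      · exact Or.inl (h.bd_mul' hT hu hv h1)
    · left
      rw [mul_comm]
      exact hv' u hu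
    · left
      exact hu' v hv
    · right
      refine ⟨by rw [map_mul, hu, hv, one_mul], fun y hy => ?_⟩
      rw [mul_assoc]
      exact hu' _ (hv' y hy)
  inv_mem' := by
    rintro u (hu | ⟨hu, hu'⟩)
    · exact Or.inl hu.inv
    · refine Or.inr ⟨by rw [map_inv, hu, inv_one], fun y hy => ?_⟩
      have h1 := (hu' _ hy.inv).inv
      rwa [mul_inv, inv_inv] at h1

lemma mem_Un {h : TSys φ Nn} {hT : Two φ Nn} {u : Fˣ} :
    u ∈ Un h hT ↔ Bd φ u ∨ (φ u = 1 ∧ ∀ y, Bd φ y → Bd φ (u * y)) := Iff.rfl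

lemma mem_Un_of_bd (h : TSys φ Nn) (hT : Two φ Nn) {u : Fˣ} (hu : Bd φ u) : u ∈ Un h hT :=
  Or.inl hu

lemma bd_of_mem {h : TSys φ Nn} {hT : Two φ Nn} {u : Fˣ} (hu : u ∈ Un h hT) (h1 : φ u ≠ 1) :
    Bd φ u := hu.resolve_right fun h2 => h1 h2.1

lemma bd_mul_of_mem {h : TSys φ Nn} {hT : Two φ Nn} {t y : Fˣ} (ht : t ∈ Un h hT)
    (hy : Bd φ y) (h1 : φ (t * y) ≠ 1) : Bd φ (t * y) :=
  bd_of_mem ((Un h hT).mul_mem ht (mem_Un_of_bd h hT hy)) h1

/-- one `ty` is enough -/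
lemma mem_Un_of_one {h : TSys φ Nn} {hT : Two φ Nn} {t y : Fˣ} (ht : φ t = 1) (hy : Bd φ y)
    (h1 : Bd φ (t * y)) : t ∈ Un h hT :=
  Or.inr ⟨ht, fun _ hy' => h.unif_bd hT ht hy hy' h1⟩

lemma of_notMem {h : TSys φ Nn} {hT : Two φ Nn} {t : Fˣ} (ht : φ t = 1) (h1 : t ∉ Un h hT) :
    (∀ y, Bd φ y → Sml φ (t * y)) ∨ (∀ y, Bd φ y → Lrg φ (t * y)) := by
  have h2 : ∃ y, Bd φ y ∧ ¬ Bd φ (t * y) := by
    by_contra hc
    push Not at hc
    exact h1 (Or.inr ⟨ht, hc⟩)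
  obtain ⟨y, hy, h3⟩ := h2
  have h4 : φ (t * y) ≠ 1 := by rw [map_mul, ht, one_mul]; exact hy.1
  rcases h.cases h4 with h5 | h5 | h5
  · exact Or.inl fun y' hy' => h.unif hT ht hy hy' h5
  · exact Or.inr fun y' hy' => h.unif_lrg hT ht hy hy' h5
  · exact absurd h5 h3

lemma neg_one_mem (h : TSys φ Nn) (hT : Two φ Nn) {y : Fˣ} (hy : Bd φ y) :
    (-1 : Fˣ) ∈ Un h hT := by
  by_contra hc
  have e : ((-1 : Fˣ) * y)⁻¹ = (-1) * y⁻¹ := by rw [mul_inv]; simp
  have h1 : φ ((-1 : Fˣ) * y) ≠ 1 := by rw [map_mul, h.neg, one_mul]; exact hy.1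
  rcases of_notMem h.neg hc with h2 | h2
  · refine not_both h1 (h2 y hy) ?_
    rw [lrg_iff, e]
    exact h2 _ hy.inv
  · refine not_both h1 ?_ (h2 y hy)
    rw [← lrg_inv_iff, e]
    exact h2 _ hy.inv

/-- `1 + y` is bad for bad `y` -/
lemma bd_one_add (h : TSys φ Nn) (hT : Two φ Nn) {y s : Fˣ} (hy : Bd φ y)
    (hs : (s : F) = 1 + y) : Bd φ s := by
  obtain ⟨h0, h1, h2⟩ := (Bd.iff hs).1 hy
  have hm := neg_one_mem h hT hy
  have e1 : φ (-s) = φ s := phi_neg h.neg s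
  have e2 : φ (-y) = φ y := phi_neg h.neg y
  have h3 : Bd φ (-s) := by
    rw [Bd.iff (s := -y) (by rw [Units.val_neg, Units.val_neg, hs]; ring), e1, e2]
    exact ⟨h1, h0, h2.symm⟩
  have h4 := bd_mul_of_mem hm h3 (by rw [map_mul, h.neg, one_mul, e1]; exact h1)
  have e3 : (-1 : Fˣ) * -s = s := by simp
  rwa [e3] at h4

/-- small elements outside the kernel -/
lemma one_add_mem (h : TSys φ Nn) (hT : Two φ Nn) {x s : Fˣ} (hx : φ x ≠ 1) (hsm : Sml φ x)
    (hs : (s : F) = 1 + x) : φ s = 1 ∧ s ∈ Un h hT := by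
  rw [Sml.iff hs] at hsm
  refine ⟨hsm, ?_⟩
  obtain ⟨y, hy, hyx⟩ := hT _ hx
  have hxy : φ x ∉ Nn (φ y) := h.rel.symm_not hyx
  have hz : φ (x * y) ∉ Nn (φ y) := by
    rw [map_mul]; exact notMem_mul' hxy (h.rel.self _)
  obtain ⟨k1, -, k3⟩ := h.key2 hy hz
  have h1 : Sml φ (x * y) := by
    rw [k1, mul_div_cancel_right, Sml.iff hs]
    exact hsm
  have h2 := k3 (s * y) h1 (by rw [Units.val_mul, Units.val_mul, hs]; ring)
  exact mem_Un_of_one hsm hy h2

/-- small elements of the kernel -/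
lemma one_add_mem' (h : TSys φ Nn) (hT : Two φ Nn) {x v y : Fˣ} (hx : φ x = 1) (hy : Bd φ y)
    (hsm : ∀ y, Bd φ y → Sml φ (x * y)) (hv : (v : F) = 1 + x) : φ v = 1 ∧ v ∈ Un h hT := by
  -- `y + x` is bad, of the class of `y`
  have hadd : ∀ y s : Fˣ, Bd φ y → (s : F) = y + x → Bd φ s ∧ φ s = φ y := by
    intro y s hy hs
    have h1 : Sml φ (x * y⁻¹) := hsm _ hy.inv
    have h2 : φ (x * y⁻¹) ≠ 1 := by rw [map_mul, hx, one_mul]; exact hy.inv.1
    have h3 : ((s / y : Fˣ) : F) = 1 + (x * y⁻¹ : Fˣ) := by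
      rw [← div_eq_mul_inv]; exact sum_div hs
    obtain ⟨h4, h5⟩ := one_add_mem h hT h2 h1 h3
    have e : φ s = φ y := by rwa [map_div, div_eq_one] at h4
    refine ⟨?_, e⟩
    have h6 := bd_mul_of_mem h5 hy (by rw [div_mul_cancel, e]; exact hy.1)
    rwa [div_mul_cancel] at h6
  have hv1 : φ v = 1 := by
    by_contra hv1
    obtain ⟨w, hw, hwv⟩ := hT _ hv1
    -- `v + w = 1 + (w + x)`
    have hvw : φ w ≠ φ v := fun e => hwv (e ▸ h.rel.self _)
    obtain ⟨s, hs⟩ := h.exists_add hvw.symm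
    obtain ⟨r, hr⟩ := h.exists_add (x := w) (y := x) (by rw [hx]; exact hw.1)
    obtain ⟨hr1, hr2⟩ := hadd w r hw hr
    have h1 : (s : F) = 1 + r := by rw [hs, hv, hr]; ring
    have h2 : φ s ≠ φ w := by
      have := (Bd.iff h1).1 hr1
      rw [← hr2]
      exact this.2.2
    obtain ⟨q, hq⟩ := h.exists_one_add hw.1
    have hq1 := (Bd.iff hq).1 hw
    -- `s = x + (1 + w)`
    have h3 : (s : F) = x + q := by rw [hs, hv, hq]; ring
    have h4 := h.sum' h3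
    rw [hx, div_one, div_one] at h4
    have h5 : φ s ∈ Nn (φ w) := by
      rw [← h.iso w hw _ (h.sum w q hq) hq1.2.1]
      exact h4
    have h6 := h.sum' hs
    have h7 : φ s / φ w ∈ Nn (φ v / φ w) := by
      rw [h.rel.inv_div]
      have := div_mem h6 (h.rel.self (φ w / φ v))
      rwa [div_div_div_cancel_right] at this
    have h8 := h.rel.sep (h.iso w hw) (h.rel.symm_not hwv) (h.rel.self _) h7
      (div_mem h5 (h.rel.self _))
    exact h2 (div_eq_one.1 h8)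
  refine ⟨hv1, ?_⟩
  -- `1 + v y = (1 + y) (1 + x y / (1 + y))`
  obtain ⟨q, hq⟩ := h.exists_one_add hy.1
  have hq1 := (Bd.iff hq).1 hy
  have hqb : Bd φ q := bd_one_add h hT hy hq
  have h1 : Bd φ (y * q⁻¹) := by
    refine h.bd_mul' hT hy hqb.inv ?_
    rw [map_mul, map_inv, ← div_eq_mul_inv]
    exact fun e => hq1.2.2 (div_eq_one.1 e).symm
  have h2 : Sml φ (x * (y * q⁻¹)) := hsm _ h1
  have h3 : φ (x * (y * q⁻¹)) ≠ 1 := by rw [map_mul, hx, one_mul]; exact h1.1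
  obtain ⟨r, hr⟩ := h.exists_one_add h3
  have hr1 := (one_add_mem h hT h3 h2 hr).1
  have h4 : ((q * r : Fˣ) : F) = 1 + (v * y : Fˣ) := by
    rw [Units.val_mul, hr, Units.val_mul, Units.val_mul, Units.val_mul, Units.val_inv_eq_inv_val,
      mul_add, hv]
    have hq0 : (q : F) ≠ 0 := q.ne_zero
    field_simp
    rw [hq]
    ring
  refine mem_Un_of_one hv1 hy ?_
  rw [Bd.iff h4, map_mul, map_mul, hr1, mul_one, hv1, one_mul]
  exact hq1

/-- sums of two elements of the kernel -/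
lemma one_add_ker (h : TSys φ Nn) (hT : Two φ Nn) {t s : Fˣ} (ht : φ t = 1)
    (hs : (s : F) = 1 + t) (hsU : s ∈ Un h hT) : φ s = 1 := by
  by_contra h1
  have hsb := bd_of_mem hsU h1
  obtain ⟨y, hy, hys⟩ := hT _ h1
  have hxb : Bd φ (s * y) := h.bd_mul hsb hy hys
  have hI := h.iso _ hxb
  obtain ⟨h0, q, hq, hq1, hq2⟩ := hxb
  obtain ⟨r, hr⟩ := h.exists_one_add hy.1
  have hr1 := (Bd.iff hr).1 hy
  -- `s (1 + y) = t + (1 + s y)`
  have e1 : ((s * r : Fˣ) : F) = t + q := by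
    rw [Units.val_mul, hr, hq, Units.val_mul, mul_add, mul_one, hs]; ring
  have h2 := h.sum' e1
  rw [ht, div_one, div_one] at h2
  have h3 : φ (s * r) ∈ Nn (φ (s * y)) := by
    rw [← hI _ (h.sum _ _ hq) hq1]
    exact h2
  have h4 : φ (r / y) ∈ Nn (φ (s * y)) := by
    have := div_mem h3 (h.rel.self (φ (s * y)))
    rwa [← map_div, mul_div_mul_left_eq_div] at this
  have h5 : φ (r / y) ∈ Nn (φ y) := by
    rw [map_div]; exact div_mem (h.sum _ _ hr) (h.rel.self _)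
  have h6 : φ (r / y) ≠ 1 := by
    rw [map_div]; exact fun e => hr1.2.2 (div_eq_one.1 e)
  have h7 := (hI _ h4 h6).symm.trans (h.iso y hy _ h5 h6)
  have h8 : φ (s * y) ∈ Nn (φ y) := h7 ▸ h.rel.self _
  rw [map_mul] at h8
  have h9 := (Subgroup.mul_mem_cancel_right _ (h.rel.self (φ y))).1 h8
  exact hys (h.rel.symm _ _ h9)

end fld

end Pool.Agent.V7H51.NR
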