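import Mathlib
import Pool.Agent.V7H51.NR.Ring
import Pool.Agent.Y925.ET.WA
import Pool.Agent.Y920.EP.FieldP

set_option autoImplicit false

/-! All bad elements lie in one isolated block: the rigid elements outside the block are not
exceptional, and a compatible valuation ring exists. -/

namespace Pool.Agent.V7H51.NR

open Pool.Agent.Y920.EP
open Pool.Agent.Y920.ETC (PCD Compat Sm RigidPair)

section fld

variable {F : Type} [Field F] {A : Type} [CommGroup A] {φ : Fˣ →* A} {Nn : A → Subgroup A}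

lemma TSys.sml_mul_bad (h : TSys φ Nn) {y z : Fˣ} (hy : Bd φ y) (hz : φ z ∉ Nn (φ y)) :
    (Sml φ (z * y) ↔ Sml φ z) ∧ (Lrg φ (z * y) ↔ Lrg φ z) := by
  have h1 : φ (z * y) ∉ Nn (φ y) := by
    rw [map_mul]; exact notMem_mul' hz (h.rel.self _)
  obtain ⟨k1, k2, -⟩ := h.key2 hy h1
  rw [mul_div_cancel_right] at k1 k2
  exact ⟨k1, k2⟩

/-- multiplication of a bad element by `1 + X`, `X` small -/
lemma TSys.bad_mul_c (h : TSys φ Nn) {y X c : Fˣ} (hy : Bd φ y) (hX : φ X ∉ Nn (φ y))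
    (hs : Sml φ X) (hc : (c : F) = 1 + X) : Bd φ (y * c) := by
  have h1 : φ (X * y) ∉ Nn (φ y) := by
    rw [map_mul]; exact notMem_mul' hX (h.rel.self _)
  obtain ⟨-, -, k3⟩ := h.key2 hy h1
  refine k3 (y * c) ((h.sml_mul_bad hy hX).1.2 hs) ?_
  rw [Units.val_mul, Units.val_mul, hc]
  ring

/-- multiplication by `1 + X`, `X` small, keeps the small elements outside the block -/
lemma TSys.c_inv (h : TSys φ Nn) {y X c Z : Fˣ} (hy : Bd φ y) (hX : φ X ∉ Nn (φ y))
    (hs : Sml φ X) (hc : (c : F) = 1 + X) (hZ : φ Z ∉ Nn (φ y)) :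
    Sml φ (Z * c) ↔ Sml φ Z := by
  have hc1 : φ c = 1 := (Sml.iff hc).1 hs
  have hb := h.bad_mul_c hy hX hs hc
  have e1 : φ (y * c) = φ y := by rw [map_mul, hc1, mul_one]
  have e2 : φ (Z * c) = φ Z := by rw [map_mul, hc1, mul_one]
  have h1 := (h.sml_mul_bad hb (z := Z) (by rw [e1]; exact hZ)).1
  have h2 := (h.sml_mul_bad hy (z := Z * c) (by rw [e2]; exact hZ)).1
  have e3 : Z * (y * c) = Z * c * y := by rw [mul_assoc, mul_comm y c]
  rw [e3] at h1
  exact h2.symm.trans h1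

/-- `-Z` is not large for a small element `Z` outside the block -/
lemma TSys.neg_not_lrg (h : TSys φ Nn) {y Z : Fˣ} (hy : Bd φ y) (hZ : φ Z ∉ Nn (φ y))
    (hs : Sml φ Z) : ¬ Lrg φ (-Z) := by
  intro hl
  obtain ⟨s, hsy⟩ := h.exists_one_add hy.1
  obtain ⟨hy1, hs1, hs2⟩ := (Bd.iff hsy).1 hy
  have e1 : φ (-s) = φ s := phi_neg h.neg s
  have e2 : φ (-y) = φ y := phi_neg h.neg y
  have e3 : φ (-Z) = φ Z := phi_neg h.neg Z
  have hb : Bd φ (-s) := by
    rw [Bd.iff (s := -y) (by rw [Units.val_neg, Units.val_neg, hsy]; ring), e1, e2]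
    exact ⟨hs1, hy1, hs2.symm⟩
  have hN : Nn (φ s) = Nn (φ y) := h.iso y hy _ (h.sum y s hsy) hs1
  -- `a = -Z`, `b = -Z y`, `a + b = Z (-s)`
  have hW : Sml φ (Z * -s) :=
    (h.sml_mul_bad hb (z := Z) (by rw [e1, hN]; exact hZ)).1.2 hs
  obtain ⟨w, hw, hw1⟩ := hW
  have hZ1 : φ (-Z) ≠ 1 := by rw [e3]; exact ne_one hZ
  obtain ⟨α, hα⟩ := h.exists_one_add hZ1
  have hα1 : φ α = φ Z := by rw [(Lrg.iff hα).1 hl, e3]
  -- `c = α / a`
  have hc1 : φ (α / -Z) = 1 := by rw [map_div, hα1, e3, div_self']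
  have hyc : φ (y * (α / -Z)⁻¹) = φ y := by rw [map_mul, map_inv, hc1, inv_one, mul_one]
  obtain ⟨q, hq⟩ := h.exists_one_add (x := y * (α / -Z)⁻¹) (by rw [hyc]; exact hy1)
  have hqK : φ q ∈ Nn (φ y) := by
    have := h.sum _ _ hq
    rwa [hyc] at this
  have e4 : w = α * q := by
    apply Units.ext
    have hα0 : (α : F) ≠ 0 := α.ne_zero
    have hZ0 : (Z : F) ≠ 0 := Z.ne_zero
    rw [hw, Units.val_mul, Units.val_mul, hq, Units.val_mul, Units.val_inv_eq_inv_val,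
      Units.val_div_eq_div_val, Units.val_neg, Units.val_neg, hsy]
    rw [Units.val_neg] at hα
    field_simp
    rw [hα]
    ring
  rw [e4, map_mul, hα1] at hw1
  apply hZ
  rw [eq_inv_of_mul_eq_one_left hw1]
  exact inv_mem hqK


/-- all bad elements lie in the block of `y` -/
def AllIn (φ : Fˣ →* A) (K : Subgroup A) : Prop := ∀ z : Fˣ, Bd φ z → φ z ∈ K

/-- products of two small elements outside the block -/
lemma TSys.sml_mul (h : TSys φ Nn) {y X Y : Fˣ} (hy : Bd φ y) (hall : AllIn φ (Nn (φ y)))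
    (hX : φ X ∉ Nn (φ y)) (hXs : Sml φ X) (hY : φ Y ∉ Nn (φ y)) (hYs : Sml φ Y) :
    Sml φ (X * Y) := by
  have e3 : φ (-X) = φ X := phi_neg h.neg X
  have hX' : φ (-X) ∉ Nn (φ y) := by rw [e3]; exact hX
  have hn : Sml φ (-X) := by
    rcases h.cases (ne_one hX') with h1 | h1 | h1
    · exact h1
    · exact absurd h1 (h.neg_not_lrg hy hX hXs)
    · exact absurd (hall _ h1) hX'
  obtain ⟨c, hc⟩ := h.exists_one_add (ne_one hX')
  have hc1 : φ c = 1 := (Sml.iff hc).1 hn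
  have hc0 : (c : F) ≠ 0 := c.ne_zero
  have hxc : ((c⁻¹ : Fˣ) : F) = 1 + (X * c⁻¹ : Fˣ) := by
    rw [Units.val_mul, Units.val_inv_eq_inv_val]
    field_simp
    rw [hc, Units.val_neg]
    ring
  have hx : Sml φ (X * c⁻¹) := by
    rw [Sml.iff hxc, map_inv, hc1, inv_one]
  have hxK : φ (X * c⁻¹) ∉ Nn (φ y) := by
    rw [map_mul, map_inv, hc1, inv_one, mul_one]; exact hX
  obtain ⟨d, hd⟩ := h.exists_one_add (ne_one hY)
  have h1 : Sml φ (X * c⁻¹ * d) := (h.c_inv hy hY hYs hd hxK).2 hx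
  obtain ⟨s, hs, hs1⟩ := h1
  refine ⟨s * c, ?_, by rw [map_mul, hs1, hc1, one_mul]⟩
  rw [Units.val_mul, hs, Units.val_mul, Units.val_mul, Units.val_inv_eq_inv_val, hd,
    Units.val_mul]
  field_simp
  rw [hc, Units.val_neg]
  ring

/-- no exception -/
lemma TSys.pcd (h : TSys φ Nn) {y : Fˣ} (hy : Bd φ y) (hall : AllIn φ (Nn (φ y))) :
    PCD φ.ker ((Nn (φ y)).comap φ) := by
  have hSm : ∀ x : Fˣ, Sm φ.ker ((Nn (φ y)).comap φ) x ↔ φ x ∉ Nn (φ y) ∧ Sml φ x := by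
    intro x
    constructor
    · rintro ⟨h1, t, ht, e⟩
      exact ⟨h1, t, e, ht⟩
    · rintro ⟨h1, t, e, ht⟩
      exact ⟨h1, t, ht, e⟩
  -- the case of a product with nontrivial class
  have key : ∀ x y' z : Fˣ, φ x ∉ Nn (φ y) → Sml φ x → φ y' ∉ Nn (φ y) → Sml φ y' →
      φ (x * y') ∈ Nn (φ y) → φ (x * y') ≠ 1 → φ z ∉ Nn (φ y) → Sml φ z →
      ¬ Lrg φ (x * y' * z) := by
    intro x y' z hx hxs hy' hys hxy hxy1 hz hzs hl
    have h1 := h.sml_mul hy hall hx hxs hy' hys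
    have h2 : φ (x * y' * z) ∉ Nn (φ y) := by
      rw [map_mul]; exact notMem_mul hxy hz
    have h3 : φ ((x * y' * z)⁻¹) ∉ Nn (φ y) := by
      rw [map_inv]; exact fun h4 => h2 (inv_mem_iff.1 h4)
    have e : z * (x * y' * z)⁻¹ = (x * y')⁻¹ := by
      rw [mul_inv, mul_comm, mul_assoc, inv_mul_cancel, mul_one]
    have h4 := h.sml_mul hy hall hz hzs h3 (lrg_iff.1 hl)
    rw [e] at h4
    exact not_both hxy1 h1 (lrg_iff.2 h4)
  refine ⟨?_, ?_, ?_⟩
  · intro x y' z hx hy' hxy hz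
    rw [hSm] at hx hy' hz ⊢
    rw [Subgroup.mem_comap] at hxy
    have h2 : φ (x * y' * z) ∉ Nn (φ y) := by
      rw [map_mul]; exact notMem_mul hxy hz.1
    refine ⟨h2, ?_⟩
    rcases h.cases (ne_one h2) with h1 | h1 | h1
    · exact h1
    · exfalso
      by_cases hu : φ (x * y') = 1
      · have h3 : φ (y' * y) ∉ Nn (φ y) := by
          rw [map_mul]; exact notMem_mul' hy'.1 (h.rel.self _)
        have e1 : x * (y' * y) = x * y' * y := by rw [mul_assoc]
        refine key x (y' * y) z hx.1 hx.2 h3 ((h.sml_mul_bad hy hy'.1).1.2 hy'.2) ?_ ?_ hz.1 hz.2 ?_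
        · rw [e1, map_mul, hu, one_mul]; exact h.rel.self _
        · rw [e1, map_mul, hu, one_mul]; exact hy.1
        · have e2 : x * (y' * y) * z = x * y' * z * y := by
            rw [e1, mul_right_comm]
          rw [e2]
          exact (h.sml_mul_bad hy h2).2.2 h1
      · exact key x y' z hx.1 hx.2 hy'.1 hy'.2 hxy hu hz.1 hz.2 h1
    · exact absurd (hall _ h1) h2
  · intro a x c ha hx hc
    rw [hSm] at ha hx ⊢
    refine ⟨?_, (h.c_inv hy hx.1 hx.2 hc ha.1).2 ha.2⟩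
    rw [map_mul, (Sml.iff hc).1 hx.2, mul_one]
    exact ha.1
  · intro x a b hx ha hb e
    rw [hSm] at hx ha hb
    have hc : ((a * b : Fˣ) : F) = 1 + x := by rw [Units.val_mul, e]
    have ha' : φ a⁻¹ ∉ Nn (φ y) := by
      rw [map_inv]; exact fun h4 => ha.1 (inv_mem_iff.1 h4)
    have h1 := h.c_inv hy hx.1 hx.2 hc ha'
    rw [inv_mul_cancel_left] at h1
    exact not_both (ne_one ha.1) ha.2 (lrg_iff.2 (h1.1 hb.2))

/-- the valuation ring: all classes of its units lie in the block of a bad element, or there are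
no bad elements and there are at most two classes of units -/
theorem TSys.exists_ring (h : TSys φ Nn) {p : ℕ} (hp : p.Prime) (hexp : ∀ a : A, a ^ p = 1)
    (hfin : ∀ y : Fˣ, Bd φ y → (Nn (φ y) : Set A).Finite) :
    ∃ (K : Subgroup A) (O : ValuationSubring F), Compat φ.ker (K.comap φ) O ∧
      ((∀ y : Fˣ, Bd φ y → K = Nn (φ y)) ∧
        ((∀ y : Fˣ, ¬ Bd φ y) → (p ≠ 2 → K = ⊥) ∧ ∃ g : A, ∀ a ∈ K, a = 1 ∨ a * g = 1)) := by
  by_cases h1 : ∃ y, Bd φ y
  · obtain ⟨y, hy⟩ := h1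
    have hall : AllIn φ (Nn (φ y)) := by
      intro z hz
      by_contra hc
      exact no_two h hy hz hc hp.pos hexp (hfin y hy)
    have hNR : NR φ ⊆ (Nn (φ y) : Set A) := by
      rintro a ⟨ha1, r, s, hr, hrs, hs1, hs2⟩
      have h1 : φ (-r) = a := by rw [phi_neg h.neg, hr]
      have h2 : Bd φ (-r) := by
        rw [Bd.iff (s := s) (by rw [Units.val_neg]; linear_combination hrs), h1]
        exact ⟨ha1, hs1, hs2⟩
      have h3 := hall _ h2
      rwa [h1] at h3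
    have hRP := rp_of h.neg _ hNR
    obtain ⟨O, hO⟩ := Pool.Agent.Y447.EP.t_WB' F _ _ hRP (h.pcd hy hall)
    refine ⟨Nn (φ y), O, hO, fun z hz => ?_, fun hc => absurd hy (hc y)⟩
    exact (h.iso y hy _ (hall z hz) hz.1).symm
  · push Not at h1
    have hNR : NR φ ⊆ ((⊥ : Subgroup A) : Set A) := by
      rintro a ⟨ha1, r, s, hr, hrs, hs1, hs2⟩
      exfalso
      have h1' : φ (-r) = a := by rw [phi_neg h.neg, hr]
      apply h1 (-r)
      rw [Bd.iff (s := s) (by rw [Units.val_neg]; linear_combination hrs), h1']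
      exact ⟨ha1, hs1, hs2⟩
    have hRP := rp_of h.neg _ hNR
    by_cases hp2 : p = 2
    · subst hp2
      have hR : RigidPair φ.ker (((⊥ : Subgroup A)).comap φ) := by
        refine ⟨fun x => ?_, hRP.le, hRP.neg, hRP.rigid⟩
        rw [MonoidHom.mem_ker, map_mul, ← sq]
        exact hexp _
      obtain ⟨z, H', hH', hR', hP'⟩ := Pool.Agent.Y925.ET.t_WA F _ _ hR
      obtain ⟨O, hO⟩ := Pool.Agent.Y447.EP.t_WB' F _ _ ⟨hR'.le, hR'.neg, hR'.rigid⟩ hP'
      have hmem : ∀ u : Fˣ, u ∈ H' ↔ φ u = 1 ∨ φ u * φ z = 1 := by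
        intro u
        rw [hH', Subgroup.mem_comap, Subgroup.mem_comap, Subgroup.mem_bot, Subgroup.mem_bot,
          map_mul]
      have hc : (H'.map φ).comap φ = H' := by
        ext u
        rw [Subgroup.mem_comap, Subgroup.mem_map]
        constructor
        · rintro ⟨v, hv, e⟩
          rw [hmem] at hv ⊢
          rwa [e] at hv
        · exact fun hu => ⟨u, hu, rfl⟩
      refine ⟨H'.map φ, O, by rw [hc]; exact hO, fun y hy => absurd hy (h1 y), fun _ =>
        ⟨fun hc => absurd rfl hc, φ z, ?_⟩⟩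
      rintro a ha
      obtain ⟨v, hv, rfl⟩ := Subgroup.mem_map.1 ha
      exact (hmem v).1 hv
    · have hodd : Odd p := hp.odd_of_ne_two hp2
      have hsq : ∀ x : Fˣ, x * x ∈ (⊥ : Subgroup A).comap φ → x ∈ (⊥ : Subgroup A).comap φ := by
        intro x hx
        rw [Subgroup.mem_comap] at hx ⊢
        obtain ⟨m, hm⟩ := hodd
        have : φ x = φ (x * x) ^ (m + 1) := by
          rw [map_mul, ← pow_two, ← pow_mul, show 2 * (m + 1) = p + 1 by omega, pow_succ, hexp,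
            one_mul]
        rw [this]
        exact pow_mem hx _
      obtain ⟨O, hO⟩ := Pool.Agent.Y447.EP.t_WB' F _ _ hRP (Pool.Agent.Y98.EP.t_PCD F _ _ hRP hsq)
      refine ⟨⊥, O, hO, fun y hy => absurd hy (h1 y), fun _ => ⟨fun _ => rfl, 1, ?_⟩⟩
      intro a ha
      exact Or.inl (Subgroup.mem_bot.1 ha)

end fld

end Pool.Agent.V7H51.NR
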