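import Mathlib
import Pool.Agent.V7H51.NR.One
import Pool.Agent.Y349.EP.Symm
import Pool.Agent.R675.TP.Ram

set_option autoImplicit false

/-! Norm groups for all primes `p` such that `-1` is a `p`-th power. -/

namespace Pool.Agent.V7H51.NR

open Polynomial Pool.Agent.Y920.EP Pool.Agent.Y349.EP
open Pool.Agent.Y920.ETC (PCD Compat)

/-- symmetry of the norm relation for all primes (the proof of the starting module Y349.EP.Symm
does not use that `p` is odd) -/
theorem symm_all {p : ℕ} (hp : p.Prime) {F : Type} [Field F] {ζ : F} (hζ : IsPrimitiveRoot ζ p)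
    {a b : Fˣ} (ha : a ∉ pwG F p) (hb : b ∉ pwG F p) (hba : b ∈ nmG p a) : a ∈ nmG p b := by
  obtain ⟨z, hz⟩ := hba
  have Ha := irr hp a ha
  have Hb := irr hp b hb
  have := Fact.mk Ha
  have := Fact.mk Hb
  have hζ0 : ζ ≠ 0 := hζ.ne_zero hp.ne_zero
  set L := AdjoinRoot (X ^ p - C (a : F)) with hL
  set α : L := AdjoinRoot.root (X ^ p - C (a : F)) with hα
  let s : L →ₐ[F] L := sh (a : F) ζ hζ.pow_eq_one
  let Y : Module.End F L := (LinearMap.mulLeft F (z : L)) * s.toLinearMap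
  have hY : ∀ x, Y x = (z : L) * s x := fun x => rfl
  have hsp : ∀ x : L, s^[p] x = x := by
    intro x
    obtain ⟨g, rfl⟩ := aeval_surj (a : F) x
    rw [sh_iter, hζ.pow_eq_one, one_smul]
  have hnz : ∏ i ∈ Finset.range p, s^[i] (z : L) = algebraMap F L b := by
    obtain ⟨g, hg⟩ := aeval_surj (a : F) (z : L)
    have h1 := norm_prod hp (a : F) ζ hζ Ha g
    have h2 : Algebra.norm F (z : L) = b := congrArg Units.val hz
    rw [hg, h2] at h1
    rw [h1]
    refine Finset.prod_congr rfl fun i _ => ?_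
    rw [← hg, sh_iter]
  have hYp : ∀ x, aeval Y (X ^ p - C (b : F)) x = 0 := by
    intro x
    rw [map_sub, map_pow, aeval_X, aeval_C, LinearMap.sub_apply, Y_pow s z Y hY, hnz, hsp,
      Module.algebraMap_end_apply, Algebra.smul_def, sub_self]
  obtain ⟨g, hg⟩ := exists_poly Y hp.pos (b : F) Hb hYp (finrank_eq hp.pos _) α
  -- the twisted commutation relation
  have hrel : ∀ x, LinearMap.mulLeft F α (Y x) = (ζ⁻¹ • Y) (LinearMap.mulLeft F α x) := by
    intro x
    have h1 : s α = ζ • α := sh_root _ _ _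
    rw [LinearMap.mulLeft_apply, LinearMap.mulLeft_apply, LinearMap.smul_apply, hY, hY, map_mul,
      h1, smul_mul_assoc, mul_smul_comm, smul_smul, inv_mul_cancel₀ hζ0, one_smul]
    ring
  have hcomm : ∀ (h : F[X]) (x : L), α * aeval Y h x =
      aeval Y (h.comp (C ζ⁻¹ * X)) (α * x) := by
    intro h x
    have h1 := intertwine (LinearMap.mulLeft F α) Y (ζ⁻¹ • Y) hrel h x
    rw [LinearMap.mulLeft_apply, LinearMap.mulLeft_apply] at h1
    have h2 : aeval Y (C ζ⁻¹ * X) = ζ⁻¹ • Y := by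
      rw [map_mul, aeval_C, aeval_X, Algebra.smul_def]
    rw [h1, aeval_comp, h2]
  have hpow : ∀ n : ℕ, α ^ n =
      aeval Y (∏ i ∈ Finset.range n, g.comp (C (ζ⁻¹ ^ i) * X)) 1 := by
    intro n
    induction n with
    | zero =>
      have h1 : aeval Y (1 : F[X]) = 1 := map_one _
      rw [pow_zero, Finset.prod_range_zero, h1]; rfl
    | succ n ih =>
      rw [pow_succ', ih, hcomm, mul_one, ← hg, ← Module.End.mul_apply, ← map_mul,
        Finset.prod_range_succ', Polynomial.prod_comp]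
      congr 3
      · refine Finset.prod_congr rfl fun i _ => ?_
        rw [comp_assoc, mul_comp, C_comp, X_comp, ← mul_assoc, ← C_mul, pow_succ]
      · rw [pow_zero, C_1, one_mul, comp_X]
  have hdiv : (X ^ p - C (b : F)) ∣
      (∏ i ∈ Finset.range p, g.comp (C (ζ⁻¹ ^ i) * X)) - C (a : F) := by
    apply dvd_of_zero Y _ Hb hYp
    rw [map_sub, LinearMap.sub_apply, ← hpow, aeval_C, Module.algebraMap_end_apply, hα, root_pow,
      Algebra.smul_def, mul_one, sub_self]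
  have hE : ∏ i ∈ Finset.range p, aeval (ζ⁻¹ ^ i • AdjoinRoot.root (X ^ p - C (b : F))) g =
      algebraMap F (AdjoinRoot (X ^ p - C (b : F))) a := by
    have h1 : aeval (AdjoinRoot.root (X ^ p - C (b : F)))
        ((∏ i ∈ Finset.range p, g.comp (C (ζ⁻¹ ^ i) * X)) - C (a : F)) = 0 := by
      rw [AdjoinRoot.aeval_eq]
      exact AdjoinRoot.mk_eq_zero.mpr hdiv
    rw [map_sub, aeval_C, sub_eq_zero, map_prod] at h1
    rw [← h1]
    refine Finset.prod_congr rfl fun i _ => ?_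
    rw [aeval_comp, map_mul, aeval_C, aeval_X, Algebra.smul_def]
  have hnorm : Algebra.norm F (aeval (AdjoinRoot.root (X ^ p - C (b : F))) g) = a := by
    have h1 := norm_prod hp (b : F) ζ⁻¹ hζ.inv Hb g
    rw [hE] at h1
    exact (algebraMap F (AdjoinRoot (X ^ p - C (b : F)))).injective h1
  have hunit : IsUnit (aeval (AdjoinRoot.root (X ^ p - C (b : F))) g) := by
    rw [isUnit_iff_ne_zero]
    intro h0
    rw [h0] at hnorm
    have h2 : Algebra.norm F (0 : AdjoinRoot (X ^ p - C (b : F))) = 0 := by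
      have : FiniteDimensional F (AdjoinRoot (X ^ p - C (b : F))) :=
        (AdjoinRoot.powerBasis (ne0 hp.pos (b : F))).finite
      exact Algebra.norm_zero
    rw [h2] at hnorm
    exact a.ne_zero hnorm.symm
  refine ⟨hunit.unit, ?_⟩
  ext
  exact hnorm

section basic

variable {F : Type} [Field F] {p : ℕ}

lemma pow_mem_nmG (hp : p.Prime) (a x : Fˣ) : x ^ p ∈ nmG p a := by
  refine ⟨Units.map (algebraMap F (AdjoinRoot (X ^ p - C (a : F))) : F →* _) x, ?_⟩
  ext
  exact norm_scalar hp.pos _ _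

lemma nmG_mul_pow (a b : Fˣ) : nmG p (a * b ^ p) = nmG p a := by
  apply le_antisymm
  · exact nmG_le a b (a * b ^ p) (by push_cast; rfl)
  · refine nmG_le (a * b ^ p) b⁻¹ a ?_
    rw [← Units.val_pow_eq_pow_val, ← Units.val_mul, inv_pow, mul_inv_cancel_right]

lemma pwG_le_nmG (hp : p.Prime) (a : Fˣ) : pwG F p ≤ nmG p a := by
  rintro _ ⟨c, rfl⟩
  exact pow_mem_nmG hp a c

/-- `1 + u` is a norm from `F(u^(1/p))` if `-1` is a `p`-th power -/
lemma one_add_mem_nmG (hp : p.Prime) (hε : ∃ ε : F, ε ^ p = -1) {u v : Fˣ}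
    (huv : (v : F) = 1 + u) : v ∈ nmG p u := by
  obtain ⟨ε, hε⟩ := hε
  have hε0 : ε ≠ 0 := by
    rintro rfl
    rw [zero_pow hp.ne_zero] at hε
    exact one_ne_zero (neg_eq_zero.1 hε.symm)
  have e1 : (-u : Fˣ) = u * (Units.mk0 ε hε0) ^ p := by
    ext
    rw [Units.val_mul, Units.val_pow_eq_pow_val, Units.val_mk0, hε, Units.val_neg]
    ring
  rw [← nmG_mul_pow u (Units.mk0 ε hε0), ← e1]
  have h1 : (algebraMap F (AdjoinRoot (X ^ p - C ((-u : Fˣ) : F))) 1 -
      AdjoinRoot.root (X ^ p - C ((-u : Fˣ) : F))) ∣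
      algebraMap F (AdjoinRoot (X ^ p - C ((-u : Fˣ) : F))) v := by
    have h2 := sub_dvd_pow_sub_pow (algebraMap F (AdjoinRoot (X ^ p - C ((-u : Fˣ) : F))) 1)
      (AdjoinRoot.root (X ^ p - C ((-u : Fˣ) : F))) p
    rw [root_pow, ← map_pow, one_pow, ← map_sub] at h2
    have e : (1 : F) - ((-u : Fˣ) : F) = v := by rw [huv, Units.val_neg]; ring
    rwa [e] at h2
  have h3 := isUnit_of_dvd_unit h1 (v.isUnit.map _)
  refine ⟨h3.unit, ?_⟩
  ext
  rw [Units.coe_map, IsUnit.unit_spec]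
  change Algebra.norm F _ = _
  rw [norm_sub_root hp.pos, one_pow, huv, Units.val_neg]
  ring

end basic

section quot

variable {F : Type} [Field F] {p : ℕ} {A : Type} [CommGroup A] {φ : Fˣ →* A}
  (hφ : Function.Surjective φ) (hk : φ.ker = pwG F p)

include hk in
lemma mem_NnF (hp : p.Prime) {u b : Fˣ} (hu : φ u ≠ 1) :
    φ b ∈ NnF p φ hφ (φ u) ↔ b ∈ nmG p u := by
  obtain ⟨k, hk'⟩ : ∃ k : Fˣ, Function.surjInv hφ (φ u) = u * k ^ p := by
    have : φ (Function.surjInv hφ (φ u) / u) = 1 := by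
      rw [_root_.map_div, Function.surjInv_eq hφ, div_self']
    rw [phi_one hk] at this
    obtain ⟨k, hk'⟩ := this
    exact ⟨k, by rw [← hk', mul_div_cancel]⟩
  rw [NnF, if_neg hu, hk', nmG_mul_pow, Subgroup.mem_map]
  constructor
  · rintro ⟨c, hc, e⟩
    have : φ (b / c) = 1 := by rw [_root_.map_div, e, div_self']
    rw [phi_one hk] at this
    obtain ⟨d, hd⟩ := this
    have e2 : b = d ^ p * c := by rw [← hd, div_mul_cancel]
    rw [e2]
    exact mul_mem (pow_mem_nmG hp u d) hc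
  · exact fun h => ⟨b, h, rfl⟩

include hk in
lemma NnF_eq (hp : p.Prime) {u v : Fˣ} (hu : φ u ≠ 1) (hv : φ v ≠ 1) :
    NnF p φ hφ (φ u) = NnF p φ hφ (φ v) ↔ nmG p u = nmG p v := by
  constructor
  · intro e
    ext b
    rw [← mem_NnF hφ hk hp hu, ← mem_NnF hφ hk hp hv, e]
  · intro e
    ext a
    obtain ⟨b, rfl⟩ := hφ a
    rw [mem_NnF hφ hk hp hu, mem_NnF hφ hk hp hv, e]

include hk in
lemma rel_NnF (hp : p.Prime) (hζ : ∃ ζ : F, IsPrimitiveRoot ζ p) (hε : ∃ ε : F, ε ^ p = -1) :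
    Rel (NnF p φ hφ) := by
  have hsymm : ∀ a b : A, b ∈ NnF p φ hφ a → a ∈ NnF p φ hφ b := by
    intro a b hab
    obtain ⟨ζ, hζ⟩ := hζ
    obtain ⟨u, rfl⟩ := hφ a
    obtain ⟨v, rfl⟩ := hφ b
    by_cases hv : φ v = 1
    · rw [NnF, if_pos hv]; trivial
    by_cases hu : φ u = 1
    · rw [hu]; exact one_mem _
    rw [mem_NnF hφ hk hp hu] at hab
    rw [mem_NnF hφ hk hp hv]
    refine symm_all hp hζ ?_ ?_ hab
    · rw [← hk, MonoidHom.mem_ker]; exact hu
    · rw [← hk, MonoidHom.mem_ker]; exact hv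
  have hn : φ (-1) = 1 := by
    rw [phi_one hk]
    obtain ⟨ε, hε⟩ := hε
    have hε0 : ε ≠ 0 := by
      rintro rfl
      rw [zero_pow hp.ne_zero] at hε
      exact one_ne_zero (neg_eq_zero.1 hε.symm)
    exact ⟨Units.mk0 ε hε0, by ext; simp [hε]⟩
  refine ⟨hsymm, fun a => ?_⟩
  by_cases ha : a = 1
  · rw [ha]; exact one_mem _
  obtain ⟨u, rfl⟩ := hφ a
  have hu : (1 : F) + u ≠ 0 := by
    have := add_ne hn (x := 1) (y := u) (by rw [map_one]; exact fun e => ha e.symm)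
    rwa [Units.val_one] at this
  have h1 : φ (Units.mk0 _ hu) ∈ NnF p φ hφ (φ u) :=
    (mem_NnF hφ hk hp ha).2 (one_add_mem_nmG hp hε (Units.val_mk0 hu))
  have hui : φ u⁻¹ ≠ 1 := by rw [map_inv]; simpa using ha
  have h2 : φ (Units.mk0 _ hu / u) ∈ NnF p φ hφ (φ u⁻¹) :=
    (mem_NnF hφ hk hp hui).2 (one_add_mem_nmG hp hε (one_add_inv (Units.val_mk0 hu)))
  have h3 : φ (Units.mk0 _ hu / u) ∈ NnF p φ hφ (φ u) := by
    have h4 := hsymm _ _ h2
    rw [map_inv] at h4
    exact hsymm _ _ (inv_mem_iff.1 h4)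
  have h5 := div_mem h1 h3
  rw [← _root_.map_div, div_div_cancel] at h5
  exact h5

end quot

section two

variable {F : Type} [Field F]

/-- the norm group for `p = 2`: the nonzero values of `x² - a y²` -/
lemma nmG_two {a b : Fˣ} (hb : b ∈ nmG 2 a) : ∃ x y : F, (b : F) = x ^ 2 - a * y ^ 2 := by
  obtain ⟨z, hz⟩ := hb
  have h2 : (0 : ℕ) < 2 := by norm_num
  have hz' : Algebra.norm F (z : AdjoinRoot (X ^ 2 - C (a : F))) = b := congrArg Units.val hz
  obtain ⟨g, hg⟩ := AdjoinRoot.mk_surjective (z : AdjoinRoot (X ^ 2 - C (a : F)))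
  have hm : (X ^ 2 - C (a : F) : F[X]).Monic := monic_X_pow_sub_C (a : F) two_ne_zero
  obtain ⟨r, hr⟩ : ∃ r, r = g %ₘ (X ^ 2 - C (a : F)) := ⟨_, rfl⟩
  have hdeg : r.natDegree ≤ 1 := by
    have h3 := Polynomial.natDegree_modByMonic_lt g hm (by
      intro h4
      have h5 := congrArg Polynomial.natDegree h4
      rw [natDegree_X_pow_sub_C, natDegree_one] at h5
      norm_num at h5)
    rw [natDegree_X_pow_sub_C] at h3
    rw [hr]
    omega
  have hmk : AdjoinRoot.mk (X ^ 2 - C (a : F)) r = z := by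
    rw [← hg, hr, AdjoinRoot.mk_eq_mk]
    refine ⟨-(g /ₘ (X ^ 2 - C (a : F))), ?_⟩
    have := Polynomial.modByMonic_add_div g (X ^ 2 - C (a : F))
    linear_combination this
  have hlin : r = C (r.coeff 1) * X + C (r.coeff 0) := eq_X_add_C_of_natDegree_le_one hdeg
  obtain ⟨x, hx⟩ : ∃ x, x = r.coeff 0 := ⟨_, rfl⟩
  obtain ⟨y, hy⟩ : ∃ y, y = r.coeff 1 := ⟨_, rfl⟩
  rw [← hx, ← hy] at hlin
  refine ⟨x, y, ?_⟩
  rw [← hz', ← hmk, hlin, map_add, map_mul, AdjoinRoot.mk_X, AdjoinRoot.mk_C, AdjoinRoot.mk_C]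
  by_cases hy0 : y = 0
  · rw [hy0, map_zero, zero_mul, zero_add]
    have h3 := norm_scalar h2 (a : F) x
    rw [show (AdjoinRoot.of (X ^ 2 - C (a : F))) x =
      algebraMap F (AdjoinRoot (X ^ 2 - C (a : F))) x from rfl, h3]
    ring
  · have h3 : (AdjoinRoot.of (X ^ 2 - C (a : F))) y * AdjoinRoot.root (X ^ 2 - C (a : F)) +
        (AdjoinRoot.of (X ^ 2 - C (a : F))) x =
        algebraMap F (AdjoinRoot (X ^ 2 - C (a : F))) (-y) *
          (algebraMap F (AdjoinRoot (X ^ 2 - C (a : F))) (-(x / y)) -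
            AdjoinRoot.root (X ^ 2 - C (a : F))) := by
      have e1 : algebraMap F (AdjoinRoot (X ^ 2 - C (a : F))) (-y) *
          algebraMap F (AdjoinRoot (X ^ 2 - C (a : F))) (-(x / y)) =
          algebraMap F (AdjoinRoot (X ^ 2 - C (a : F))) x := by
        rw [← map_mul]
        congr 1
        field_simp
      rw [mul_sub, e1]
      change algebraMap F (AdjoinRoot (X ^ 2 - C (a : F))) y * _ +
        algebraMap F (AdjoinRoot (X ^ 2 - C (a : F))) x = _
      rw [map_neg]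
      ring
    rw [h3, map_mul, norm_scalar h2, norm_sub_root h2]
    field_simp

lemma two_ram {O : ValuationSubring F} (hO : Pw 2 O) {a : Fˣ}
    (hR : ∀ f : F, f ≠ 0 → ¬ ((a : F) * f ^ 2 ∈ O ∧ ((a : F) * f ^ 2)⁻¹ ∈ O)) {b : Fˣ}
    (hb : b ∈ nmG 2 a) : ∃ c : Fˣ, b = c ^ 2 ∨ b = -a * c ^ 2 := by
  obtain ⟨x, y, e⟩ := nmG_two hb
  by_cases hx : x = 0
  · have hy : y ≠ 0 := by
      rintro rfl
      apply b.ne_zero
      rw [e, hx]; ring
    refine ⟨Units.mk0 y hy, Or.inr ?_⟩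
    ext
    rw [e, hx, Units.val_mul, Units.val_neg, Units.val_pow_eq_pow_val, Units.val_mk0]
    ring
  by_cases hy : y = 0
  · refine ⟨Units.mk0 x hx, Or.inl ?_⟩
    ext
    rw [e, hy, Units.val_pow_eq_pow_val, Units.val_mk0]
    ring
  -- `r = a (y/x)²` is not a unit
  obtain ⟨r, hr⟩ : ∃ r : F, r = a * (y / x) ^ 2 := ⟨_, rfl⟩
  have hr0 : r ≠ 0 := by
    rw [hr]
    exact mul_ne_zero a.ne_zero (pow_ne_zero _ (div_ne_zero hy hx))
  have h1 := hR (y / x) (div_ne_zero hy hx)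
  rw [← hr] at h1
  by_cases h2 : r ∈ O
  · have h3 : r⁻¹ ∉ O := fun h3 => h1 ⟨h2, h3⟩
    obtain ⟨s, hs⟩ := hO.2.2 (-r) (O.neg_mem _ h2) (by
      rw [inv_neg]
      intro h4
      apply h3
      have := O.neg_mem _ h4
      rwa [neg_neg] at this)
    have hs0 : s ≠ 0 := by
      rintro rfl
      apply b.ne_zero
      have h5 : (b : F) = x ^ 2 * (1 + -r) := by
        rw [e, hr]; field_simp; ring
      rw [h5, ← hs]; ring
    refine ⟨Units.mk0 (x * s) (mul_ne_zero hx hs0), Or.inl ?_⟩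
    ext
    rw [Units.val_pow_eq_pow_val, Units.val_mk0, mul_pow, hs, e, hr]
    field_simp
    ring
  · have h3 : r⁻¹ ∈ O := (O.mem_or_inv_mem r).resolve_left h2
    obtain ⟨s, hs⟩ := hO.2.2 (-r⁻¹) (O.neg_mem _ h3) (by
      rw [inv_neg, inv_inv]
      intro h4
      apply h2
      have := O.neg_mem _ h4
      rwa [neg_neg] at this)
    have hs0 : s ≠ 0 := by
      rintro rfl
      apply b.ne_zero
      have h5 : (b : F) = -(x ^ 2 * r) * (1 + -r⁻¹) := by
        rw [e]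
        have : r * r⁻¹ = 1 := mul_inv_cancel₀ hr0
        have h6 : x ^ 2 * r = a * y ^ 2 := by rw [hr]; field_simp
        linear_combination (-x ^ 2) * this + h6
      rw [h5, ← hs]; ring
    refine ⟨Units.mk0 (y * s) (mul_ne_zero hy hs0), Or.inr ?_⟩
    ext
    rw [Units.val_mul, Units.val_neg, Units.val_pow_eq_pow_val, Units.val_mk0, mul_pow, hs, e]
    have h6 : x ^ 2 * r = a * y ^ 2 := by rw [hr]; field_simp
    have h7 : r * r⁻¹ = 1 := mul_inv_cancel₀ hr0
    have h8 : (a : F) * y ^ 2 * r⁻¹ = x ^ 2 := by rw [← h6, mul_assoc, h7, mul_one]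
    linear_combination -h8

end two

/-- ramified classes: `N(a) ≤ ⟨a⟩ F*^p` if no `a f^p` is a unit -/
theorem ram_all {p : ℕ} (hp : p.Prime) {F : Type} [Field F] (hζ : ∃ ζ : F, IsPrimitiveRoot ζ p)
    (hε : ∃ ε : F, ε ^ p = -1) {O : ValuationSubring F} (hO : Pw p O) {a : Fˣ}
    (ha : a ∉ O.unitGroup ⊔ pwG F p) : nmG p a ≤ Subgroup.zpowers a ⊔ pwG F p := by
  have hR : ∀ f : F, f ≠ 0 → ¬ ((a : F) * f ^ p ∈ O ∧ ((a : F) * f ^ p)⁻¹ ∈ O) := by
    rintro f hf ⟨h1, h2⟩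
    apply ha
    have h3 : a * Units.mk0 f hf ^ p ∈ O.unitGroup := by
      refine mem_unitGroup_of ?_ ?_
      · rw [Units.val_mul, Units.val_pow_eq_pow_val, Units.val_mk0]; exact h1
      · rw [Units.val_inv_eq_inv_val, Units.val_mul, Units.val_pow_eq_pow_val,
          Units.val_mk0]; exact h2
    have h4 := mul_mem (Subgroup.mem_sup_left h3)
      (inv_mem (Subgroup.mem_sup_right (S := O.unitGroup) (T := pwG F p)
        (show Units.mk0 f hf ^ p ∈ pwG F p from ⟨_, rfl⟩)))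
    rwa [mul_inv_cancel_right] at h4
  intro b hb
  by_cases hp2 : p = 2
  · subst hp2
    obtain ⟨c, h | h⟩ := two_ram hO hR hb
    · rw [h]
      exact Subgroup.mem_sup_right ⟨c, rfl⟩
    · obtain ⟨ε, hε⟩ := hε
      have hε0 : ε ≠ 0 := by
        rintro rfl
        rw [zero_pow two_ne_zero] at hε
        exact one_ne_zero (neg_eq_zero.1 hε.symm)
      have e : -a * c ^ 2 = a * (Units.mk0 ε hε0 * c) ^ 2 := by
        ext
        simp only [Units.val_mul, Units.val_neg, Units.val_pow_eq_pow_val, Units.val_mk0, mul_pow,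
          hε]
        ring
      rw [h, e]
      exact mul_mem (Subgroup.mem_sup_left (Subgroup.mem_zpowers a))
        (Subgroup.mem_sup_right ⟨_, rfl⟩)
  · obtain ⟨j, c, e⟩ := Pool.Agent.R675.TP.nmG_ram p hp hp2 F hζ O hO a hR b hb
    rw [e]
    exact mul_mem (Subgroup.mem_sup_left (pow_mem (Subgroup.mem_zpowers a) j))
      (Subgroup.mem_sup_right ⟨c, rfl⟩)

end Pool.Agent.V7H51.NR
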