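import Mathlib
import Pool.Agent.V7H51.NR.Nrm
import Pool.Agent.R675.TP.Cls
import Pool.Agent.Y920.EP.GalP
import Pool.Agent.Y920.ETC.GalH
import Pool.Agent.Y620.ET.Extv
import Pool.Agent.Y37.ET.Max2
import Pool.Agent.Y86.EP.Kum
import Pool.Agent.Y279.EP.Up
import Pool.Agent.Y925.EP.Tower
import Pool.Agent.Y419.EP.Inert
import Pool.Agent.Y469.EP.Max

set_option autoImplicit false

/-! Fields in which the norm groups of the nonrigid elements are isolated. -/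

namespace Pool.Agent.V7H51.NR

open Pool.Agent.Y920.EP
open Pool.Agent.Y920.ETC (PCD Compat)

/-- `x` is not a `p`-th power, and `1 + x` lies neither in `F*^p` nor in `x F*^p` -/
def NonRig (p : ℕ) {F : Type} [Field F] (x : Fˣ) : Prop :=
  x ∉ pwG F p ∧ ∃ s : Fˣ, (s : F) = 1 + x ∧ s ∉ pwG F p ∧ s / x ∉ pwG F p

section

variable {F : Type} [Field F] {p : ℕ} {A : Type} [CommGroup A] {φ : Fˣ →* A}

lemma bd_iff (hk : φ.ker = pwG F p) {x : Fˣ} : Bd φ x ↔ NonRig p x := by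
  have hmem : ∀ u : Fˣ, u ∉ pwG F p ↔ φ u ≠ 1 := by
    intro u
    rw [← hk, MonoidHom.mem_ker]
  unfold Bd NonRig
  simp only [hmem, map_div, ne_eq, div_eq_one]

lemma finite_NnF (hφ : Function.Surjective φ) (hk : φ.ker = pwG F p) (hp : p.Prime) {u : Fˣ}
    (hu : φ u ≠ 1) (h1 : (pwG F p).relIndex (nmG p u) ≠ 0) :
    (NnF p φ hφ (φ u) : Set A).Finite := by
  have e : NnF p φ hφ (φ u) = (nmG p u).map φ := by
    ext b
    obtain ⟨v, rfl⟩ := hφ b
    rw [mem_NnF hφ hk hp hu]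
    constructor
    · exact fun h => ⟨v, h, rfl⟩
    · rintro ⟨c, hc, e⟩
      have h1 : φ c ∈ NnF p φ hφ (φ u) := (mem_NnF hφ hk hp hu).2 hc
      rw [e] at h1
      exact (mem_NnF hφ hk hp hu).1 h1
  rw [← hk, Subgroup.relIndex_ker, ← e] at h1
  have hf : Finite (NnF p φ hφ (φ u)) := Nat.finite_of_card_ne_zero h1
  exact Set.toFinite _

end

/-- nonrigid elements are units up to `p`-th powers -/
lemma nonRig_unit {p : ℕ} (hp : p.Prime) {F : Type} [Field F] {O' : ValuationSubring F}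
    (hPw : Pw p O') {x : Fˣ} (hx : NonRig p x) : x ∈ O'.unitGroup ⊔ pwG F p := by
  obtain ⟨hx1, s, hs, hs1, hs2⟩ := hx
  by_contra hc
  have hxu : ¬ ((x : F) ∈ O' ∧ ((x⁻¹ : Fˣ) : F) ∈ O') := fun h =>
    hc (Subgroup.mem_sup_left (mem_unitGroup_of h.1 h.2))
  by_cases h1 : (x : F) ∈ O'
  · have h2 : (x : F)⁻¹ ∉ O' := by
      rw [← Units.val_inv_eq_inv_val]
      exact fun h2 => hxu ⟨h1, h2⟩
    obtain ⟨y, hy⟩ := hPw.2.2 _ h1 h2
    apply hs1
    have hy0 : y ≠ 0 := by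
      rintro rfl
      rw [zero_pow hp.ne_zero, ← hs] at hy
      exact s.ne_zero hy.symm
    exact ⟨Units.mk0 y hy0, Units.ext (by
      change (Units.mk0 y hy0 ^ p : Fˣ).val = _
      rw [Units.val_pow_eq_pow_val, Units.val_mk0, hy, hs])⟩
  · have h2 : (x : F)⁻¹ ∈ O' := (O'.mem_or_inv_mem _).resolve_left h1
    obtain ⟨y, hy⟩ := hPw.2.2 _ h2 (by rwa [inv_inv])
    apply hs2
    have e1 := one_add_inv hs
    have hy0 : y ≠ 0 := by
      rintro rfl
      rw [zero_pow hp.ne_zero, ← Units.val_inv_eq_inv_val, ← e1] at hy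
      exact (s / x).ne_zero hy.symm
    exact ⟨Units.mk0 y hy0, Units.ext (by
      change (Units.mk0 y hy0 ^ p : Fˣ).val = _
      rw [Units.val_pow_eq_pow_val, Units.val_mk0, hy, e1, Units.val_inv_eq_inv_val])⟩

/-- the valuation ring -/
theorem field_main {p : ℕ} (hp : p.Prime) {F : Type} [Field F]
    (hζ : ∃ ζ : F, IsPrimitiveRoot ζ p) (hε : ∃ ε : F, ε ^ p = -1)
    (hiso : ∀ x : Fˣ, NonRig p x → (pwG F p).relIndex (nmG p x) ≠ 0 ∧ nmG p x ≠ ⊤ ∧
      ∀ b ∈ nmG p x, b ∉ pwG F p → nmG p b = nmG p x)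
    (hbig : ∀ g : Fˣ, ∃ a : Fˣ, a ∉ pwG F p ∧ a * g ∉ pwG F p) :
    ∃ O : ValuationSubring F, Pw p O ∧ O.unitGroup ⊔ pwG F p ≠ ⊤ ∧
      (∀ a : Fˣ, a ∉ O.unitGroup ⊔ pwG F p → nmG p a = Subgroup.zpowers a ⊔ pwG F p) ∧
      ∀ x : Fˣ, NonRig p x → nmG p x = O.unitGroup ⊔ pwG F p := by
  obtain ⟨A, _, φ, hφ, hk⟩ := exists_quot F (pwG F p)
  have hmem : ∀ u : Fˣ, u ∉ pwG F p ↔ φ u ≠ 1 := by
    intro u
    rw [← hk, MonoidHom.mem_ker]
  have hrel := rel_NnF hφ hk hp hζ hε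
  have hneg : φ (-1) = 1 := by
    rw [phi_one hk]
    obtain ⟨ε, hε⟩ := hε
    have hε0 : ε ≠ 0 := by
      rintro rfl
      rw [zero_pow hp.ne_zero] at hε
      exact one_ne_zero (neg_eq_zero.1 hε.symm)
    exact ⟨Units.mk0 ε hε0, by ext; simp [hε]⟩
  have hT : TSys φ (NnF p φ hφ) := by
    refine ⟨hneg, hrel, ?_, ?_⟩
    · intro u v huv
      by_cases hu : φ u = 1
      · rw [NnF, if_pos hu]; trivial
      rw [mem_NnF hφ hk hp hu]
      exact one_add_mem_nmG hp hε huv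
    · intro y hy b hb hb1
      obtain ⟨v, rfl⟩ := hφ b
      rw [mem_NnF hφ hk hp hy.1] at hb
      rw [NnF_eq hφ hk hp hb1 hy.1]
      exact (hiso y ((bd_iff hk).1 hy)).2.2 v hb ((hmem v).2 hb1)
  have hpF : (p : F) ≠ 0 := by
    obtain ⟨ζ, hζ⟩ := hζ
    have : NeZero p := ⟨hp.ne_zero⟩
    exact hζ.neZero'.ne
  obtain ⟨K, O, hO, hK1, hK2⟩ := hT.exists_ring hp (exp_p hφ hk) (fun y hy =>
    finite_NnF hφ hk hp hy.1 (hiso y ((bd_iff hk).1 hy)).1)
  have hKtop : K ≠ ⊤ := by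
    by_cases h1 : ∃ y, Bd φ y
    · obtain ⟨y, hy⟩ := h1
      intro e
      rw [hK1 y hy] at e
      apply (hiso y ((bd_iff hk).1 hy)).2.1
      rw [eq_top_iff]
      intro b _
      rw [← mem_NnF hφ hk hp hy.1, e]
      trivial
    · push Not at h1
      obtain ⟨-, g, hg⟩ := hK2 h1
      obtain ⟨γ, rfl⟩ := hφ g
      obtain ⟨a, ha, hag⟩ := hbig γ
      rw [hmem] at ha hag
      rw [map_mul] at hag
      intro e
      rcases hg (φ a) (by rw [e]; trivial) with h2 | h2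
      · exact ha h2
      · exact hag h2
  have hTH : φ.ker ≤ K.comap φ := by
    intro x hx
    rw [Subgroup.mem_comap, MonoidHom.mem_ker.1 hx]
    exact one_mem _
  obtain ⟨O', -, hpO, hO'⟩ := Pool.Agent.Y232.EP.t_COARSE' F p hp hpF φ.ker (K.comap φ)
    (fun x => by rw [MonoidHom.mem_ker, phi_one hk]) hTH O hO
  have hPw : Pw p O' := by
    refine ⟨hpO, hpF, ?_⟩
    intro x hx hx'
    obtain ⟨t, ht, e⟩ := hO'.one x hx hx'
    rw [MonoidHom.mem_ker, phi_one hk] at ht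
    obtain ⟨b, rfl⟩ := ht
    exact ⟨b, by rw [← e, Units.val_pow_eq_pow_val]⟩
  have hUK : O'.unitGroup ≤ K.comap φ := by
    intro u hu
    refine hO'.units u ?_ ?_
    · rw [← ValuationSubring.valuation_le_one_iff]
      exact le_of_eq hu
    · rw [← ValuationSubring.valuation_le_one_iff]
      exact le_of_eq (inv_mem hu : u⁻¹ ∈ O'.unitGroup)
  have hself : ∀ a : Fˣ, a ∉ pwG F p → a ∈ nmG p a := by
    intro a ha
    rw [hmem] at ha
    exact (mem_NnF hφ hk hp ha).1 (hrel.self _)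
  have hram : ∀ a : Fˣ, a ∉ O'.unitGroup ⊔ pwG F p →
      nmG p a = Subgroup.zpowers a ⊔ pwG F p := by
    intro a ha
    have hap : a ∉ pwG F p := fun h => ha (Subgroup.mem_sup_right h)
    refine le_antisymm (ram_all hp hζ hε hPw ha) (sup_le ?_ (pwG_le_nmG hp a))
    rw [Subgroup.zpowers_le]
    exact hself a hap
  refine ⟨O', hPw, ?_, hram, ?_⟩
  · intro e
    apply hKtop
    rw [eq_top_iff]
    intro a _
    obtain ⟨u, rfl⟩ := hφ a
    have h1 : u ∈ O'.unitGroup ⊔ pwG F p := by rw [e]; trivial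
    have h2 : O'.unitGroup ⊔ pwG F p ≤ K.comap φ := sup_le hUK (by rw [← hk]; exact hTH)
    exact h2 h1
  · intro x hx
    have hxb : Bd φ x := (bd_iff hk).2 hx
    refine le_antisymm ?_ (sup_le ?_ (pwG_le_nmG hp x))
    · -- `x` is a unit up to `p`-th powers
      obtain ⟨hx1, s, hs, hs1, hs2⟩ := hx
      have hxU : x ∈ O'.unitGroup ⊔ pwG F p := nonRig_unit hp hPw ⟨hx1, s, hs, hs1, hs2⟩
      intro c hc
      by_contra hcU
      have hcp : c ∉ pwG F p := fun h => hcU (Subgroup.mem_sup_right h)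
      obtain ⟨ζ, hζ'⟩ := hζ
      have h1 : x ∈ nmG p c := symm_all hp hζ' hx1 hcp hc
      rw [hram c hcU] at h1
      obtain ⟨z, hz, y, hy, hxy⟩ := Subgroup.mem_sup.1 h1
      obtain ⟨n, rfl⟩ := Subgroup.mem_zpowers_iff.1 hz
      have h3 : c ^ n ∈ O'.unitGroup ⊔ pwG F p := by
        have h4 : c ^ n = x * y⁻¹ := by rw [← hxy, mul_inv_cancel_right]
        rw [h4]
        exact mul_mem hxU (inv_mem (Subgroup.mem_sup_right hy))
      by_cases hd : (p : ℤ) ∣ n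
      · obtain ⟨m, rfl⟩ := hd
        apply hx1
        rw [← hxy]
        refine mul_mem ⟨c ^ m, ?_⟩ hy
        change (c ^ m) ^ p = _
        rw [← zpow_natCast, ← zpow_mul, mul_comm]
      · apply hcU
        refine Pool.Agent.R675.TP.mem_of_pow hp le_sup_right (j := n.natAbs)
          (fun hd' => hd (Int.natCast_dvd.2 hd')) ?_
        rcases Int.natAbs_eq n with e | e
        · rw [e, zpow_natCast] at h3; exact h3
        · rw [e, zpow_neg, zpow_natCast] at h3; exact inv_mem_iff.1 h3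
    · intro u hu
      have h1 := hUK hu
      rw [Subgroup.mem_comap, hK1 x hxb] at h1
      exact (mem_NnF hφ hk hp hxb.1).1 h1

/-- the Galois group of the maximal `p`-extension -/
theorem gal_main (p : ℕ) (hp : p.Prime) (F : Type) [Field F]
    (hζ : ∃ ζ : F, IsPrimitiveRoot ζ p) (O : ValuationSubring F) (hO : Pw p O)
    (hne : O.unitGroup ⊔ pwG F p ≠ ⊤) (K : IntermediateField F (AlgebraicClosure F))
    (hK : IsMaxP p F K) : DecInert F K := by
  obtain ⟨c, hc⟩ : ∃ c : Fˣ, c ∉ O.unitGroup ⊔ pwG F p := by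
    by_contra hc
    push Not at hc
    exact hne (eq_top_iff.2 fun c _ => hc c)
  have hc' : ∃ c : Fˣ, ∀ f : Fˣ, ¬ (((c * f ^ p : Fˣ) : F) ∈ O ∧ (((c * f ^ p)⁻¹ : Fˣ) : F) ∈ O) := by
    refine ⟨c, ?_⟩
    rintro f ⟨h6, h7⟩
    apply hc
    have h8 : c * f ^ p ∈ O.unitGroup := mem_unitGroup_of h6 h7
    have h9 : f ^ p ∈ pwG F p := ⟨f, rfl⟩
    have h10 := mul_mem (Subgroup.mem_sup_left (T := pwG F p) h8)
      (inv_mem (Subgroup.mem_sup_right (S := O.unitGroup) h9))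
    rwa [mul_inv_cancel_right] at h10
  by_cases hp2 : p = 2
  · subst hp2
    have h2 : (2 : F) ≠ 0 := by exact_mod_cast hO.2.1
    have hS : Pool.Agent.Y920.ETC.Sqr O := by
      refine ⟨by exact_mod_cast hO.1, h2, fun x hx hx' => ?_⟩
      obtain ⟨y, hy⟩ := hO.2.2 x hx hx'
      exact ⟨y, by rw [← hy, sq]⟩
    exact Pool.Agent.Y920.ETC.decInert Pool.Agent.Y620.ET.t_EXTV Pool.Agent.Y37.ET.t_MAX2 F h2 O hS
      hc' K hK
  · exact decInert ⟨Pool.Agent.Y86.EP.t_KUM, Pool.Agent.Y279.EP.t_UP,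
      Pool.Agent.Y925.EP.t_TOWER', Pool.Agent.Y419.EP.t_INERT', Pool.Agent.Y469.EP.t_MAX'⟩ p hp hp2 F
      hζ O hO hc' K hK

end Pool.Agent.V7H51.NR
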