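import Mathlib
import Pool.Agent.V7H51.NR.Fin
import Pool.Agent.R675.TP.Part

set_option autoImplicit false

/-! Partitions of `F*/T` which respect sums and valuation rings, `p = 2`, arbitrary `T ∋ -1`. -/

namespace Pool.Agent.V7H51.NR

open Pool.Agent.Y920.EP
open Pool.Agent.Y920.ETC (PCD Compat)
open Pool.Agent.R675.TP (IsPart NnP mem_NnP tsys_of_part)

/-- systems of blocks are systems with isolated blocks at the bad elements -/
lemma tsys_of {F : Type} [Field F] {A : Type} [CommGroup A] {φ : Fˣ →* A} {Nn : A → Subgroup A}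
    (h : Pool.Agent.R675.TP.TSys φ Nn) : TSys φ Nn :=
  ⟨h.neg, ⟨h.blk.symm, h.blk.self⟩, h.sum, fun _ hy _ hb hb1 => h.blk.eq_of hy.1 hb1 hb⟩

/-- from partitions to valuation rings -/
theorem val_of_part2 {F : Type} [Field F] {T : Subgroup Fˣ} (hsq : ∀ x : Fˣ, x * x ∈ T)
    (hneg : (-1 : Fˣ) ∈ T) (hfin : T.index ≠ 0) {P : Set (Subgroup Fˣ)} (hP : IsPart T P)
    (hsum : ∀ x v : Fˣ, x ∉ T → (v : F) = 1 + x → ∀ K ∈ P, x ∈ K → v ∈ K) :
    ∃ K ∈ P, ∃ O : ValuationSubring F, O.unitGroup ≤ K ∧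
      (∀ x : F, x ∈ O → x⁻¹ ∉ O → ∃ t ∈ T, (t : F) = 1 + x) ∧
      ((2 : F) ≠ 0 → (∀ x : Fˣ, x ∈ T ↔ ∃ y : Fˣ, x = y ^ 2) → (2 : F)⁻¹ ∈ O) := by
  obtain ⟨A, _, φ, hφ, hk⟩ := exists_quot F T
  have hfA : Finite A := by
    rw [← hk, Subgroup.index_ker, MonoidHom.range_eq_top.2 hφ] at hfin
    have := Nat.finite_of_card_ne_zero hfin
    exact Finite.of_equiv _ (Subgroup.topEquiv (G := A)).toEquiv
  have hP' : IsPart φ.ker P := by rw [hk]; exact hP
  have hmem : ∀ u : Fˣ, u ∉ T ↔ φ u ≠ 1 := by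
    intro u
    rw [← hk, MonoidHom.mem_ker]
  have hn : φ (-1) = 1 := by rw [← MonoidHom.mem_ker, hk]; exact hneg
  have hT := tsys_of (tsys_of_part hφ hP' hn
    (fun x v hx hv K hK hxK => hsum x v ((hmem x).2 hx) hv K hK hxK))
  have hexp : ∀ a : A, a ^ 2 = 1 := by
    intro a
    obtain ⟨u, rfl⟩ := hφ a
    rw [sq, ← map_mul, ← MonoidHom.mem_ker, hk]
    exact hsq u
  obtain ⟨K₀, O, hO, hK1, hK2⟩ := hT.exists_ring Nat.prime_two hexp (fun y _ => Set.toFinite _)
  obtain ⟨K, hK, hK₀⟩ : ∃ K ∈ P, K₀.comap φ ≤ K := by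
    by_cases h1 : ∃ y, Bd φ y
    · obtain ⟨y, hy⟩ := h1
      obtain ⟨K, hK, hyK⟩ := hP.cover y
      refine ⟨K, hK, fun u hu => ?_⟩
      rw [Subgroup.mem_comap, hK1 y hy, mem_NnP hφ hP' hy.1] at hu
      obtain ⟨K', hK', hyK', huK'⟩ := hu
      have e := hP.eq_of hK' hK ((hmem y).2 hy.1) hyK' hyK
      rwa [e] at huK'
    · push Not at h1
      obtain ⟨-, g, hg⟩ := hK2 h1
      obtain ⟨γ, rfl⟩ := hφ g
      obtain ⟨K, hK, hγK⟩ := hP.cover γ
      refine ⟨K, hK, fun u hu => ?_⟩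
      rcases hg _ (Subgroup.mem_comap.1 hu) with h2 | h2
      · apply hP.le K hK
        rw [← hk, MonoidHom.mem_ker]
        exact h2
      · rw [← map_mul, ← MonoidHom.mem_ker, hk] at h2
        exact (Subgroup.mul_mem_cancel_right _ hγK).1 (hP.le K hK h2)
  have hTH : φ.ker ≤ K₀.comap φ := by
    intro x hx
    rw [Subgroup.mem_comap, MonoidHom.mem_ker.1 hx]
    exact one_mem _
  have key : ∀ O : ValuationSubring F, Compat φ.ker (K₀.comap φ) O → O.unitGroup ≤ K ∧
      (∀ x : F, x ∈ O → x⁻¹ ∉ O → ∃ t ∈ T, (t : F) = 1 + x) := by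
    intro O hO
    constructor
    · intro u hu
      refine hK₀ (hO.units u ?_ ?_)
      · rw [← ValuationSubring.valuation_le_one_iff]
        exact le_of_eq hu
      · rw [← ValuationSubring.valuation_le_one_iff]
        exact le_of_eq (inv_mem hu : u⁻¹ ∈ O.unitGroup)
    · intro x hx hx'
      obtain ⟨t, ht, e⟩ := hO.one x hx hx'
      exact ⟨t, by rw [← hk]; exact ht, e⟩
  by_cases h2 : (2 : F) ≠ 0 ∧ (∀ x : Fˣ, x ∈ T ↔ ∃ y : Fˣ, x = y ^ 2)
  · obtain ⟨O', -, hpO, hO'⟩ := Pool.Agent.Y232.EP.t_COARSE' F 2 Nat.prime_two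
      (by exact_mod_cast h2.1) φ.ker (K₀.comap φ) (fun x => by rw [hk]; exact h2.2 x) hTH O hO
    refine ⟨K, hK, O', (key O' hO').1, (key O' hO').2, fun _ _ => ?_⟩
    exact_mod_cast hpO
  · exact ⟨K, hK, O, (key O hO).1, (key O hO).2, fun h3 h4 => absurd ⟨h3, h4⟩ h2⟩

/-- the subgroup `T ∪ a T` -/
def tw {G : Type} [CommGroup G] (T : Subgroup G) (a : G) (ha : a * a ∈ T) : Subgroup G where
  carrier := {x | x ∈ T ∨ a * x ∈ T}
  one_mem' := Or.inl (one_mem T)
  mul_mem' := by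
    rintro x y (hx | hx) (hy | hy)
    · exact Or.inl (mul_mem hx hy)
    · right
      have := mul_mem hx hy
      rwa [mul_left_comm] at this
    · right
      have := mul_mem hx hy
      rwa [mul_assoc] at this
    · left
      have h1 : a * a * (x * y) ∈ T := by
        have := mul_mem hx hy
        rwa [mul_mul_mul_comm] at this
      exact (Subgroup.mul_mem_cancel_left T ha).1 h1
  inv_mem' := by
    rintro x (hx | hx)
    · exact Or.inl (inv_mem hx)
    · right
      have h1 : a * a * (a * x)⁻¹ ∈ T := mul_mem ha (inv_mem hx)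
      have e : a * a * (a * x)⁻¹ = a * x⁻¹ := by
        rw [mul_inv, mul_assoc, mul_inv_cancel_left]
      rwa [e] at h1

lemma mem_tw {G : Type} [CommGroup G] {T : Subgroup G} {a : G} {ha : a * a ∈ T} {x : G} :
    x ∈ tw T a ha ↔ x ∈ T ∨ a * x ∈ T := Iff.rfl

/-- from valuation rings to partitions -/
theorem part_of_val2 {F : Type} [Field F] {T : Subgroup Fˣ} (hsq : ∀ x : Fˣ, x * x ∈ T)
    (hneg : (-1 : Fˣ) ∈ T) (hidx : T.index ≠ 2) (O : ValuationSubring F)
    (hO : ∀ x : F, x ∈ O → x⁻¹ ∉ O → ∃ t ∈ T, (t : F) = 1 + x)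
    (hne : O.unitGroup ⊔ T ≠ ⊤) :
    ∃ P : Set (Subgroup Fˣ), IsPart T P ∧
      ∀ x v : Fˣ, x ∉ T → (v : F) = 1 + x → ∀ K ∈ P, x ∈ K → v ∈ K := by
  obtain ⟨U, hU⟩ : ∃ U, U = O.unitGroup ⊔ T := ⟨_, rfl⟩
  rw [← hU] at hne
  have hTU : T ≤ U := hU ▸ le_sup_right
  have hOU : O.unitGroup ≤ U := hU ▸ le_sup_left
  -- elements which are not units
  have hnu : ∀ x v : Fˣ, (v : F) = 1 + x → ¬ ((x : F) ∈ O ∧ ((x⁻¹ : Fˣ) : F) ∈ O) →
      v ∈ T ∨ ∃ t ∈ T, v = x * t := by
    intro x v hv hx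
    by_cases h1 : (x : F) ∈ O
    · obtain ⟨t, ht, e⟩ := hO _ h1 (by
        rw [← Units.val_inv_eq_inv_val]
        exact fun h2 => hx ⟨h1, h2⟩)
      left
      have : v = t := Units.ext (by rw [hv, e])
      rw [this]; exact ht
    · have h2 : (x : F)⁻¹ ∈ O := (O.mem_or_inv_mem _).resolve_left h1
      obtain ⟨t, ht, e⟩ := hO _ h2 (by rwa [inv_inv])
      right
      refine ⟨t, ht, Units.ext ?_⟩
      have hx0 : (x : F) ≠ 0 := x.ne_zero
      rw [hv, Units.val_mul, e]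
      field_simp
      ring
  refine ⟨{K | K = U ∨ ∃ (a : Fˣ), a ∉ U ∧ K = tw T a (hsq a)}, ⟨?_, ?_, ?_, ?_⟩, ?_⟩
  · rintro K (rfl | ⟨a, -, rfl⟩)
    · exact hTU
    · exact fun x hx => Or.inl hx
  · rintro K (rfl | ⟨a, ha, rfl⟩)
    · exact hne
    · intro e
      apply hidx
      rw [Subgroup.index_eq_two_iff]
      have haT : a ∉ T := fun h => ha (hTU h)
      refine ⟨a, fun b => ?_⟩
      have hb : b ∈ tw T a (hsq a) := by rw [e]; trivial
      by_cases h1 : b ∈ T
      · exact Or.inr ⟨h1, fun h => haT ((Subgroup.mul_mem_cancel_left T h1).1 h)⟩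
      · have h2 := hb.resolve_left h1
        rw [mul_comm] at h2
        exact Or.inl ⟨h2, h1⟩
  · intro x
    by_cases hx : x ∈ U
    · exact ⟨U, Or.inl rfl, hx⟩
    · exact ⟨_, Or.inr ⟨x, hx, rfl⟩, Or.inr (hsq x)⟩
  · have hUa : ∀ a : Fˣ, a ∉ U → U ⊓ tw T a (hsq a) = T := by
      intro a ha
      refine le_antisymm ?_ (le_inf hTU fun x hx => Or.inl hx)
      rintro x ⟨h1, h2 | h2⟩
      · exact h2
      · exact absurd ((Subgroup.mul_mem_cancel_right U h1).1 (hTU h2)) ha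
    have hab : ∀ a b x : Fˣ, a * x ∈ T → b * x ∈ T → tw T a (hsq a) ≤ tw T b (hsq b) := by
      intro a b x h1 h2 y hy
      rcases hy with hy | hy
      · exact Or.inl hy
      · right
        have h3 : b * a ∈ T := by
          have h4 := mul_mem h2 h1
          have e : b * x * (a * x) = b * a * (x * x) := mul_mul_mul_comm _ _ _ _
          rw [e] at h4
          exact (Subgroup.mul_mem_cancel_right T (hsq x)).1 h4
        have h4 := mul_mem h3 hy
        have e : b * a * (a * y) = a * a * (b * y) := by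
          rw [mul_comm b a, mul_mul_mul_comm]
        rw [e] at h4
        exact (Subgroup.mul_mem_cancel_left T (hsq a)).1 h4
    rintro K (rfl | ⟨a, ha, rfl⟩) K' (rfl | ⟨b, hb, rfl⟩) hKK
    · exact absurd rfl hKK
    · exact hUa b hb
    · rw [inf_comm]
      exact hUa a ha
    · refine le_antisymm ?_ (le_inf (fun x hx => Or.inl hx) fun x hx => Or.inl hx)
      rintro x ⟨h1, h2⟩
      by_contra hx
      have h1' := h1.resolve_left hx
      have h2' := h2.resolve_left hx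
      exact hKK (le_antisymm (hab a b x h1' h2') (hab b a x h2' h1'))
  · rintro x v hx hv K (rfl | ⟨a, ha, rfl⟩) hxK
    · by_cases hu : (x : F) ∈ O ∧ ((x⁻¹ : Fˣ) : F) ∈ O
      · have hvO : (v : F) ∈ O := by rw [hv]; exact O.add_mem _ _ O.one_mem hu.1
        by_cases h1 : ((v⁻¹ : Fˣ) : F) ∈ O
        · exact hOU (mem_unitGroup_of hvO h1)
        · exfalso
          obtain ⟨t, ht, e⟩ := hO (-v) (O.neg_mem _ hvO) (by
            rw [inv_neg, ← Units.val_inv_eq_inv_val]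
            intro h2
            apply h1
            have := O.neg_mem _ h2
            rwa [neg_neg] at this)
          apply hx
          have e2 : x = (-1) * t := by
            ext
            rw [Units.val_mul, e, hv]
            simp
          rw [e2]
          exact mul_mem hneg ht
      · rcases hnu x v hv hu with h | ⟨t, ht, rfl⟩
        · exact hTU h
        · exact mul_mem hxK (hTU ht)
    · have hxa : a * x ∈ T := hxK.resolve_left hx
      have hxU : ¬ ((x : F) ∈ O ∧ ((x⁻¹ : Fˣ) : F) ∈ O) := by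
        rintro ⟨h1, h2⟩
        have h3 := hOU (mem_unitGroup_of h1 h2)
        exact ha ((Subgroup.mul_mem_cancel_right U h3).1 (hTU hxa))
      rcases hnu x v hv hxU with h | ⟨t, ht, rfl⟩
      · exact Or.inl h
      · right
        rw [← mul_assoc]
        exact mul_mem hxa ht

end Pool.Agent.V7H51.NR
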