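import Mathlib
import Pool.Agent.V7H51.NR.Two
import Pool.Agent.N908.FR.Fld

set_option autoImplicit false

/-! Steinberg symbols which vanish on a subgroup `T ∋ -1`, values in `ℤ/2`. -/

namespace Pool.Agent.V7H51.NR

open Module Submodule Function Pool.Agent.N908.FR

/-- a Steinberg symbol on `F` with values in `ℤ/2` which vanishes on `T` -/
structure IsSy (F : Type) [Field F] (T : Subgroup Fˣ) (c : Fˣ → Fˣ → ZMod 2) : Prop where
  sym : IsSymbol 2 F c
  van : ∀ t ∈ T, ∀ x : Fˣ, c t x = 0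

section

variable {F : Type} [Field F] {T : Subgroup Fˣ} {c : Fˣ → Fˣ → ZMod 2}

lemma IsSy.anti (h : IsSy F T c) (a b : Fˣ) : c a b + c b a = 0 := by
  have h1 := h.sym.neg_self (a * b)
  have e1 : c (a * b) (-(a * b)) = c a (-a * b) + c b (-b * a) := by
    rw [h.sym.mul_left]
    congr 2
    · exact (neg_mul a b).symm
    · rw [mul_comm a b]; exact (neg_mul b a).symm
  rw [e1, h.sym.mul_right, h.sym.mul_right, h.sym.neg_self, h.sym.neg_self, zero_add,
    zero_add] at h1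
  exact h1

lemma IsSy.van' (h : IsSy F T c) {t : Fˣ} (ht : t ∈ T) (x : Fˣ) : c x t = 0 := by
  have h1 := h.anti x t
  rwa [h.van t ht, add_zero] at h1

lemma IsSy.self (h : IsSy F T c) (hneg : (-1 : Fˣ) ∈ T) (a : Fˣ) : c a a = 0 := by
  have h1 := h.sym.neg_self a
  rw [show -a = (-1) * a by simp, h.sym.mul_right, h.van' hneg, zero_add] at h1
  exact h1

lemma IsSy.one_add (h : IsSy F T c) (hneg : (-1 : Fˣ) ∈ T) (a b : Fˣ) (hab : (b : F) = 1 + a) :
    c a b = 0 := by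
  have h1 := h.sym.steinberg (-a) b (by rw [hab]; simp)
  rw [show -a = (-1) * a by simp, h.sym.mul_left, h.van _ hneg, zero_add] at h1
  exact h1

variable {V : Type} [AddCommGroup V] [Module (ZMod 2) V] [FiniteDimensional (ZMod 2) V]

lemma exists_formT (hneg : (-1 : Fˣ) ∈ T) {q : Fˣ → V} (hq : ∀ a b, q (a * b) = q a + q b)
    (hs : Surjective q) (hk : ∀ a, q a = 0 ↔ a ∈ T) (h : IsSy F T c) :
    ∃ β ∈ Forms (ZMod 2) (Est q), ∀ a b, β (q a) (q b) = c a b := by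
  have hq1 : q 1 = 0 := (hk 1).2 (one_mem _)
  have hqi : ∀ a, q a⁻¹ = - q a := fun a => by
    have := hq a a⁻¹
    rw [mul_inv_cancel, hq1] at this
    exact (neg_eq_of_add_eq_zero_right this.symm).symm
  have hdiv : ∀ a b, q a = q b → a * b⁻¹ ∈ T := fun a b hab => by
    rw [← hk, hq, hqi, hab, add_neg_cancel]
  have hl : ∀ a b x, q a = q b → c a x = c b x := fun a b x hab => by
    have h1 := h.van _ (hdiv a b hab) x
    rw [h.sym.mul_left, h.sym.inv_left, ← sub_eq_add_neg, sub_eq_zero] at h1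
    exact h1
  have hr : ∀ a b x, q a = q b → c x a = c x b := fun a b x hab => by
    have h1 := h.van' (hdiv a b hab) x
    rw [h.sym.mul_right, h.sym.inv_right, ← sub_eq_add_neg, sub_eq_zero] at h1
    exact h1
  set s : V → Fˣ := surjInv hs with hsdef
  have hqs : ∀ x, q (s x) = x := surjInv_eq hs
  let β₁ : V → (V →ₗ[ZMod 2] ZMod 2) := fun x => AddMonoidHom.toZModLinearMap 2
    (AddMonoidHom.mk' (fun y => c (s x) (s y)) fun y z => by
      rw [← h.sym.mul_right]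
      exact hr _ _ _ (by rw [hqs, hq, hqs, hqs]))
  have hβ₁ : ∀ x y, β₁ x y = c (s x) (s y) := fun x y => rfl
  let β : V →ₗ[ZMod 2] V →ₗ[ZMod 2] ZMod 2 := AddMonoidHom.toZModLinearMap 2
    (AddMonoidHom.mk' β₁ fun x y => by
      refine LinearMap.ext fun z => ?_
      rw [LinearMap.add_apply, hβ₁, hβ₁, hβ₁, ← h.sym.mul_left]
      exact hl _ _ _ (by rw [hqs, hq, hqs, hqs]))
  have hβ : ∀ x y, β x y = c (s x) (s y) := fun x y => rfl
  have hβq : ∀ a b, β (q a) (q b) = c a b := fun a b => by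
    rw [hβ, hl _ a _ (hqs _), hr _ b _ (hqs _)]
  refine ⟨β, mem_Forms.2 ⟨fun x => ?_, ?_⟩, hβq⟩
  · rw [hβ]
    exact h.self hneg _
  · rintro x y ⟨a, b, hab, rfl, rfl⟩
    rw [hβq]
    exact h.one_add hneg a b hab

lemma card_symbolsT (hneg : (-1 : Fˣ) ∈ T) {q : Fˣ → V} (hq : ∀ a b, q (a * b) = q a + q b)
    (hs : Surjective q) (hk : ∀ a, q a = 0 ↔ a ∈ T) :
    Nat.card {c : Fˣ → Fˣ → ZMod 2 // IsSy F T c} ≤
      2 ^ finrank (ZMod 2) (Forms (ZMod 2) (Est q)) := by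
  have h1 : Nat.card (Forms (ZMod 2) (Est q)) =
      2 ^ finrank (ZMod 2) (Forms (ZMod 2) (Est q)) := by
    let _ : AddCommGroup (Forms (ZMod 2) (Est q)) := Module.addCommMonoidToAddCommGroup (ZMod 2)
    have h0 := Module.natCard_eq_pow_finrank (K := ZMod 2) (V := Forms (ZMod 2) (Est q))
    rwa [Nat.card_zmod] at h0
  rw [← h1]
  have : Finite (Forms (ZMod 2) (Est q)) := Module.finite_of_finite (ZMod 2)
  choose f hf hf' using fun c : {c : Fˣ → Fˣ → ZMod 2 // IsSy F T c} =>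
    exists_formT hneg hq hs hk c.2
  refine Nat.card_le_card_of_injective (fun c => (⟨f c, hf c⟩ : Forms (ZMod 2) (Est q))) ?_
  intro c c' h
  have h2 : f c = f c' := congrArg Subtype.val h
  apply Subtype.ext
  funext a b
  rw [← hf', ← hf', h2]

lemma relIndex_sgT {q : Fˣ → V} (hq : ∀ a b, q (a * b) = q a + q b)
    (hs : Surjective q) (hk : ∀ a, q a = 0 ↔ a ∈ T) (K : Submodule (ZMod 2) V) :
    T.relIndex (sg hq K) = 2 ^ finrank (ZMod 2) K := by
  let f : sg hq K →* Multiplicative V :=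
    MonoidHom.mk' (fun a => Multiplicative.ofAdd (q a)) fun a b => by
      rw [← ofAdd_add, ← hq]
      rfl
  have h1 : T.subgroupOf (sg hq K) = f.ker := by
    ext a
    rw [Subgroup.mem_subgroupOf, MonoidHom.mem_ker, ← hk]
    rfl
  have h2 : Nat.card f.range = Nat.card K := by
    refine Nat.card_congr
      { toFun := fun x => ⟨Multiplicative.toAdd x.1, ?_⟩
        invFun := fun x => ⟨Multiplicative.ofAdd x.1, ?_⟩
        left_inv := fun x => rfl
        right_inv := fun x => rfl }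
    · obtain ⟨a, ha⟩ := x.2
      rw [← ha]
      exact a.2
    · obtain ⟨a, ha⟩ := hs x.1
      exact ⟨⟨a, by rw [mem_sg, ha]; exact x.2⟩, congrArg Multiplicative.ofAdd ha⟩
  rw [Subgroup.relIndex, h1, Subgroup.index_ker, h2,
    Module.natCard_eq_pow_finrank (K := ZMod 2), Nat.card_zmod]

/-- the valuation ring from few relations -/
theorem mainT
    {q : Fˣ → V} (hq : ∀ a b, q (a * b) = q a + q b)
    (hs : Surjective q) (hk : ∀ a, q a = 0 ↔ a ∈ T)
    (hr : finrank (ZMod 2) (Pool.Agent.N908.FR.Rel (k := ZMod 2) (Est q) ⊤) + 2 ≤ finrank (ZMod 2) V) :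
    ∃ P : Set (Subgroup Fˣ), Pool.Agent.R675.TP.IsPart T P ∧
      (∀ x v : Fˣ, x ∉ T → (v : F) = 1 + x → ∀ K ∈ P, x ∈ K → v ∈ K) ∧
      ∀ K ∈ P, T.relIndex K ≠ 0 ∧
        T.relIndex K ≤ 2 ^ (1 + finrank (ZMod 2) (Pool.Agent.N908.FR.Rel (k := ZMod 2) (Est q) ⊤)) := by
  obtain ⟨P, hP1, hP2, hP3, hP4, hP5⟩ := exists_part (Est q) hr
  have hle : ∀ K : Submodule (ZMod 2) V, T ≤ sg hq K := fun K a ha => by
    rw [mem_sg, (hk a).2 ha]
    exact zero_mem _
  refine ⟨sg hq '' P, ⟨?_, ?_, ?_, ?_⟩, ?_, ?_⟩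
  · rintro _ ⟨K, -, rfl⟩
    exact hle K
  · rintro _ ⟨K, hK, rfl⟩ h0
    refine hP1 K hK (eq_top_iff.2 fun x _ => ?_)
    obtain ⟨a, rfl⟩ := hs x
    rw [← mem_sg hq, h0]
    exact Subgroup.mem_top _
  · intro a
    obtain ⟨K, hK, h⟩ := hP2 (q a)
    exact ⟨_, ⟨K, hK, rfl⟩, h⟩
  · rintro _ ⟨K, hK, rfl⟩ _ ⟨K', hK', rfl⟩ hne
    have h1 := hP3 K hK K' hK' (fun h => hne (by rw [h]))
    refine le_antisymm ?_ (le_inf (hle K) (hle K'))
    rintro a ⟨h2, h3⟩
    rw [← hk, ← mem_bot (ZMod 2), ← h1]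
    exact ⟨h2, h3⟩
  · rintro x v hx hv _ ⟨K, hK, rfl⟩ hxK
    exact hP4 K hK (q x) (q v) ⟨x, v, hv, rfl, rfl⟩ (fun h0 => hx ((hk x).1 h0)) hxK
  · rintro _ ⟨K, hK, rfl⟩
    rw [relIndex_sgT hq hs hk]
    refine ⟨(pow_pos two_pos _).ne', Nat.pow_le_pow_right two_pos ((hP5 K hK).trans ?_)⟩
    exact Nat.add_le_add_left (finrank_mono (Pool.Agent.N908.FR.Rel_mono _ le_top)) _

end

end Pool.Agent.V7H51.NR
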