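import Mathlib
import Pool.Agent.V7H51.NR.Fin

set_option autoImplicit false

/-! # MP_600e55_nt: Efrat's conjecture for fields in which the norm groups of the nonrigid elements
are isolated, all primes `p`

`F` is a field with a primitive `p`-th root of unity such that `-1` is a `p`-th power (automatic for
`p` odd; for `p = 2` it means that `-1` is a square), and `N(a)` is the norm group of
`F(a^(1/p))`.  An element `x`, not a `p`-th power, is nonrigid if `1 + x` lies neither in `F*^p` nor
in `x F*^p`.  A norm group `N(x)` is isolated if it is not `F*` and `N(b) = N(x)` for all `b` in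
`N(x)` which are not `p`-th powers.

Theorem.  Let `F*/F*^p` have more than two elements (it may be infinite) and let the norm groups of
the nonrigid elements be finite modulo `p`-th powers.  The norm groups of all nonrigid elements are
isolated if and only if `F` has a valuation ring `O` with `p ∈ O*`, `1 + m ⊆ F*^p`, `O* F*^p ≠ F*`
such that, if there are nonrigid elements at all, `N(u) = O* F*^p` for all `u ∈ O* F*^p` which are
not `p`-th powers.  In this case the maximal pro-`p` Galois group is the decomposition group of a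
valuation with nontrivial inertia, and the conclusion of the conjecture holds.

Nothing is assumed on the norm groups of the other elements, and `p = 2` is included.

Outline.  Call `z` small if `1 + z ∈ F*^p` and large if `1 + z ∈ z F*^p`.  If `y` is nonrigid and
`K = N(y)` is isolated, then for all `z ∉ K` the elements `z` and `z y` are small, large or nonrigid
together; this uses only that `K` is isolated.  If there were nonrigid elements in two blocks, they
would be units of a valuation ring whose residue field has a finite multiplicative quotient which is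
not cyclic.  So all nonrigid elements lie in one block `K`.  Then `-z` is small for a small `z ∉ K`,
a product of two small elements outside `K` is small, and it follows that the pair `(F*^p, K)` is
not exceptional, so that the units of the valuation ring lie in `K`, for `p = 2` too. -/

namespace Pool.Agent.V7H51.NR.IsolatedNonrigid

open Pool.Agent.Y920.EP

/-- the group of `p`-th powers of `F*` -/
def powers (F : Type) [Field F] (p : ℕ) : Subgroup Fˣ := (powMonoidHom p : Fˣ →* Fˣ).range

open Polynomial in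
/-- the norms to `F` of the units of the algebra `F[X]/(X^p - a)`: the norm group of the field
`F(a^(1/p))` if `a` is not a `p`-th power -/
noncomputable def normGroup {F : Type} [Field F] (p : ℕ) (a : Fˣ) : Subgroup Fˣ :=
  (Units.map (Algebra.norm F : AdjoinRoot (X ^ p - C (a : F)) →* F)).range

/-- `x` is not a `p`-th power and `1 + x` lies neither in `F*^p` nor in `x F*^p` -/
def Nonrigid (p : ℕ) {F : Type} [Field F] (x : Fˣ) : Prop :=
  x ∉ powers F p ∧ ∃ s : Fˣ, (s : F) = 1 + x ∧ s ∉ powers F p ∧ s / x ∉ powers F p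

/-- the norm group of `x` is not `F*`, and it is the norm group of all its elements which are not
`p`-th powers -/
def IsIsolated (p : ℕ) {F : Type} [Field F] (x : Fˣ) : Prop :=
  normGroup p x ≠ ⊤ ∧ ∀ b ∈ normGroup p x, b ∉ powers F p → normGroup p b = normGroup p x

/-- the group `O* F*^p` of the elements which are units of `O` up to `p`-th powers -/
noncomputable def unitClasses {F : Type} [Field F] (p : ℕ) (O : ValuationSubring F) : Subgroup Fˣ :=
  O.unitGroup ⊔ powers F p

/-- `p` is a unit of `O`, `1 + m ⊆ F*^p`, and `O* F*^p ≠ F*` -/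
structure IsCompatible {F : Type} [Field F] (p : ℕ) (O : ValuationSubring F) : Prop where
  inv_mem : (p : F)⁻¹ ∈ O
  one_add : ∀ x : F, x ∈ O → x⁻¹ ∉ O → ∃ y : F, y ^ p = 1 + x
  ne_top : unitClasses p O ≠ ⊤

/-- `K` is the compositum of the finite Galois extensions of `F` of `p`-power degree -/
def IsMaximalPExtension (p : ℕ) {F : Type} [Field F]
    (K : IntermediateField F (AlgebraicClosure F)) : Prop :=
  K = sSup {L : IntermediateField F (AlgebraicClosure F) |
    FiniteDimensional F L ∧ IsGalois F L ∧ ∃ k : ℕ, Module.finrank F L = p ^ k}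

/-- `H` is the decomposition group in `Gal(K/F)` of a valuation of `K`, and the inertia group is
not trivial -/
def IsDecompositionGroup {F : Type} [Field F] {K : IntermediateField F (AlgebraicClosure F)}
    (H : Subgroup (↥K ≃ₐ[F] ↥K)) : Prop :=
  ∃ (Γ : Type) (_ : LinearOrderedCommGroupWithZero Γ) (w : Valuation K Γ),
    (∀ σ : ↥K ≃ₐ[F] ↥K, σ ∈ H ↔ ∀ x : ↥K, (w (σ x) ≤ 1 ↔ w x ≤ 1)) ∧
    ∃ σ ∈ H, σ ≠ 1 ∧ ∀ x : ↥K, w x ≤ 1 → w (σ x - x) < 1

/-- `G` is the free pro-`p` product of its subgroups `H i` (for a pro-`p` group `G` and closed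
`H i`) -/
def IsFreeProduct (p : ℕ) {G : Type} [Group G] [TopologicalSpace G] {n : ℕ}
    (H : Fin n → Subgroup G) : Prop :=
  ∀ (P : Type) [Group P] [Finite P], (∃ k : ℕ, Nat.card P = p ^ k) →
    ∀ φ : (i : Fin n) → (H i →* P), (∀ i, IsOpen ((φ i).ker : Set (H i))) →
      ∃! ψ : G →* P, IsOpen (ψ.ker : Set G) ∧ ∀ i, ∀ x : H i, ψ (x : G) = φ i x

/-- the conclusion of Q1: `Gal(K/F)` is the free pro-`p` product of finitely many closed subgroups
of type (i), (ii) or (iii) -/
def ConclusionOfQ1 (p : ℕ) [Fact p.Prime] {F : Type} [Field F]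
    (K : IntermediateField F (AlgebraicClosure F)) : Prop :=
  ∃ (n : ℕ) (H : Fin n → Subgroup (↥K ≃ₐ[F] ↥K)),
    (∀ i, IsClosed (H i : Set (↥K ≃ₐ[F] ↥K))) ∧ IsFreeProduct p H ∧
    ∀ i, Nonempty (H i ≃ₜ* Multiplicative (PadicInt p)) ∨ IsDecompositionGroup (H i) ∨
      (p = 2 ∧ Nat.card (H i) = 2)

theorem result (p : ℕ) [Fact p.Prime] (F : Type) [Field F]
    (hζ : ∃ ζ : F, IsPrimitiveRoot ζ p) (hneg : ∃ ε : F, ε ^ p = -1)
    (h1 : (powers F p).index ≠ 1) (h2 : (powers F p).index ≠ 2)
    (hfin : ∀ x : Fˣ, Nonrigid p x → (powers F p).relIndex (normGroup p x) ≠ 0) :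
    -- the valuation ring
    ((∀ x : Fˣ, Nonrigid p x → IsIsolated p x) ↔
      ∃ O : ValuationSubring F, IsCompatible p O ∧
        ((∃ x : Fˣ, Nonrigid p x) → ∀ u : Fˣ, u ∉ powers F p → u ∈ unitClasses p O →
          normGroup p u = unitClasses p O)) ∧
    -- Galois groups
    ((∀ x : Fˣ, Nonrigid p x → IsIsolated p x) →
      ∀ K : IntermediateField F (AlgebraicClosure F), IsMaximalPExtension p K →
        IsDecompositionGroup (⊤ : Subgroup (↥K ≃ₐ[F] ↥K)) ∧ ConclusionOfQ1 p K) := by
  have hp : p.Prime := Fact.out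
  have hbig : ∀ g : Fˣ, ∃ a : Fˣ, a ∉ powers F p ∧ a * g ∉ powers F p := by
    intro g
    by_contra hc
    push Not at hc
    by_cases hg : g ∈ powers F p
    · apply h1
      rw [Subgroup.index_eq_one, eq_top_iff]
      intro a _
      by_contra ha
      exact ha ((Subgroup.mul_mem_cancel_right _ hg).1 (hc a ha))
    · apply h2
      rw [Subgroup.index_eq_two_iff]
      refine ⟨g, fun b => ?_⟩
      by_cases hb : b ∈ powers F p
      · exact Or.inr ⟨hb, fun h => hg ((Subgroup.mul_mem_cancel_left _ hb).1 h)⟩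
      · exact Or.inl ⟨hc b hb, hb⟩
  have hmain : (∀ x : Fˣ, Nonrigid p x → IsIsolated p x) →
      ∃ O : ValuationSubring F, Pw p O ∧ O.unitGroup ⊔ pwG F p ≠ ⊤ ∧
        (∀ a : Fˣ, a ∉ O.unitGroup ⊔ pwG F p → nmG p a = Subgroup.zpowers a ⊔ pwG F p) ∧
        ∀ x : Fˣ, Pool.Agent.V7H51.NR.NonRig p x → nmG p x = O.unitGroup ⊔ pwG F p := by
    intro h
    exact Pool.Agent.V7H51.NR.field_main hp hζ hneg
      (fun x hx => ⟨hfin x hx, (h x hx).1, (h x hx).2⟩) hbig
  refine ⟨⟨fun h => ?_, ?_⟩, fun h K hK => ?_⟩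
  · obtain ⟨O, hO1, hO2, -, hO4⟩ := hmain h
    refine ⟨O, ⟨hO1.1, hO1.2.2, hO2⟩, ?_⟩
    rintro ⟨x, hx⟩ u hu huU
    have h3 : normGroup p x = unitClasses p O := hO4 x hx
    rw [← h3] at huU ⊢
    exact (h x hx).2 u huU hu
  · rintro ⟨O, hO, hu⟩ x hx
    have hpF : (p : F) ≠ 0 := by
      obtain ⟨ζ, hζ⟩ := hζ
      have : NeZero p := ⟨hp.ne_zero⟩
      exact hζ.neZero'.ne
    have hxU : x ∈ unitClasses p O :=
      Pool.Agent.V7H51.NR.nonRig_unit hp ⟨hO.inv_mem, hpF, hO.one_add⟩ hx
    have h3 := hu ⟨x, hx⟩ x hx.1 hxU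
    refine ⟨by rw [h3]; exact hO.ne_top, fun b hb hb1 => ?_⟩
    rw [h3] at hb ⊢
    exact hu ⟨x, hx⟩ b hb1 hb
  · obtain ⟨O, hO1, hO2, -, -⟩ := hmain h
    have hD : DecInert F K := Pool.Agent.V7H51.NR.gal_main p hp F hζ O hO1 hO2 K hK
    refine ⟨?_, efratP p F K hD⟩
    obtain ⟨Γ, hΓ, w, hw, σ, hσ, hσw⟩ := hD
    exact ⟨Γ, hΓ, w, fun τ => ⟨fun _ x => hw τ x, fun _ => trivial⟩, σ, trivial, hσ, hσw⟩

end Pool.Agent.V7H51.NR.IsolatedNonrigid
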