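import Mathlib
import Pool.Agent.V7H51.NR.Sym

set_option autoImplicit false

/-! # MP_600e55_nt: partitions, symbols and valuations for `p = 2`, modulo a subgroup `T`

Let `T` be a subgroup of finite index of `F*` which contains the squares and `-1` (for instance
`T = F*²` if `-1` is a square; in general `F*/F*²` may be infinite and `-1` need not be a square).

* If `[F* : T] ≠ 2`, then `F` has a valuation ring `O` with `1 + m ⊆ T` and `O* T ≠ F*` if and only
  if `F*/T` has a partition into proper subgroups such that `1 + x` lies in the part of `x` for all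
  `x ∉ T`.
* Let `[F* : T] = 2 ^ n` and let `S` be the group of the Steinberg symbols with values in `ℤ/2` which
  vanish on `T`.  If `|S| > 2 ^ ((n - 1) (n - 2) / 2)`, there is such an `O` with
  `[O* T : T] |S| ≤ 2 ^ (n (n - 1) / 2 + 1)`.
* In both cases, if `T = F*²` and the characteristic is not `2`, then `O` may be chosen with
  `2 ∈ O*`, the maximal pro-`2` Galois group is the decomposition group of a valuation with
  nontrivial inertia, and the conclusion of the conjecture holds.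

Outline.  A partition gives a system of blocks, so the ring construction for isolated blocks applies
(file `IsolatedNonrigid`); the pair `(T, K)` is not exceptional since a small element outside the
block `K` has a small negative.  Conversely, `O* T` and the groups `T ∪ a T`, `a ∉ O* T`, are the
parts.  For the symbols: the elements `x ∧ (1 + x)` span a subspace of dimension `r ≤ n - 2` of the
exterior square of `F*/T`, and the maximal connected subspaces form a partition with parts of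
dimension at most `r + 1`. -/

namespace Pool.Agent.V7H51.NR.PartitionsTwo

open Pool.Agent.Y920.EP

/-- the group of squares of `F*` -/
def squares (F : Type) [Field F] : Subgroup Fˣ := (powMonoidHom 2 : Fˣ →* Fˣ).range

/-- `P` is a partition of `F*/T` into proper subgroups: the members of `P` are subgroups
`K ≠ F*` of `F*` containing `T`, they cover `F*`, and any two of them meet in `T` -/
structure IsPartition {F : Type} [Field F] (T : Subgroup Fˣ) (P : Set (Subgroup Fˣ)) : Prop where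
  le : ∀ K ∈ P, T ≤ K
  ne_top : ∀ K ∈ P, K ≠ ⊤
  cover : ∀ x : Fˣ, ∃ K ∈ P, x ∈ K
  inf : ∀ K ∈ P, ∀ K' ∈ P, K ≠ K' → K ⊓ K' = T

/-- if `x ∉ T` lies in a part, so does `1 + x` -/
def RespectsSums {F : Type} [Field F] (T : Subgroup Fˣ) (P : Set (Subgroup Fˣ)) : Prop :=
  ∀ x v : Fˣ, x ∉ T → (v : F) = 1 + x → ∀ K ∈ P, x ∈ K → v ∈ K

/-- `1 + m ⊆ T`, and `O* T ≠ F*` -/
structure IsCompatible {F : Type} [Field F] (T : Subgroup Fˣ) (O : ValuationSubring F) : Prop where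
  one_add : ∀ x : F, x ∈ O → x⁻¹ ∉ O → ∃ t ∈ T, (t : F) = 1 + x
  ne_top : O.unitGroup ⊔ T ≠ ⊤

/-- the Steinberg symbols on `F` with values in `ℤ/2` which vanish on `T`: the bimultiplicative
functions `c` with `c(x,y) = 0` for all `x + y = 1` and `c(t,x) = 0` for all `t ∈ T` -/
def Symbols (F : Type) [Field F] (T : Subgroup Fˣ) : Type :=
  {c : Fˣ → Fˣ → ZMod 2 // (∀ a b x : Fˣ, c (a * b) x = c a x + c b x) ∧
    (∀ x a b : Fˣ, c x (a * b) = c x a + c x b) ∧ (∀ x y : Fˣ, (x : F) + y = 1 → c x y = 0) ∧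
    ∀ t ∈ T, ∀ x : Fˣ, c t x = 0}

/-- `K` is the compositum of the finite Galois extensions of `F` of 2-power degree -/
def IsMaximalTwoExtension {F : Type} [Field F] (K : IntermediateField F (AlgebraicClosure F)) :
    Prop :=
  K = sSup {L : IntermediateField F (AlgebraicClosure F) |
    FiniteDimensional F L ∧ IsGalois F L ∧ ∃ k : ℕ, Module.finrank F L = 2 ^ k}

/-- `H` is the decomposition group in `Gal(K/F)` of a valuation of `K`, and the inertia group is
not trivial -/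
def IsDecompositionGroup {F : Type} [Field F] {K : IntermediateField F (AlgebraicClosure F)}
    (H : Subgroup (↥K ≃ₐ[F] ↥K)) : Prop :=
  ∃ (Γ : Type) (_ : LinearOrderedCommGroupWithZero Γ) (w : Valuation K Γ),
    (∀ σ : ↥K ≃ₐ[F] ↥K, σ ∈ H ↔ ∀ x : ↥K, (w (σ x) ≤ 1 ↔ w x ≤ 1)) ∧
    ∃ σ ∈ H, σ ≠ 1 ∧ ∀ x : ↥K, w x ≤ 1 → w (σ x - x) < 1

/-- `G` is the free pro-2 product of its subgroups `H i` (for a pro-2 group `G` and closed
`H i`) -/
def IsFreeProduct {G : Type} [Group G] [TopologicalSpace G] {n : ℕ}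
    (H : Fin n → Subgroup G) : Prop :=
  ∀ (P : Type) [Group P] [Finite P], (∃ k : ℕ, Nat.card P = 2 ^ k) →
    ∀ φ : (i : Fin n) → (H i →* P), (∀ i, IsOpen ((φ i).ker : Set (H i))) →
      ∃! ψ : G →* P, IsOpen (ψ.ker : Set G) ∧ ∀ i, ∀ x : H i, ψ (x : G) = φ i x

/-- the conclusion of Q1 for `p = 2`: `Gal(K/F)` is the free pro-2 product of finitely many closed
subgroups of type (i), (ii) or (iii) -/
def ConclusionOfQ1 {F : Type} [Field F] (K : IntermediateField F (AlgebraicClosure F)) : Prop :=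
  ∃ (n : ℕ) (H : Fin n → Subgroup (↥K ≃ₐ[F] ↥K)),
    (∀ i, IsClosed (H i : Set (↥K ≃ₐ[F] ↥K))) ∧ IsFreeProduct H ∧
    ∀ i, Nonempty (H i ≃ₜ* Multiplicative (PadicInt 2)) ∨ IsDecompositionGroup (H i) ∨
      Nat.card (H i) = 2

/-- the dimension of the space of relations -/
lemma dim_le (n f r : ℕ) (h2 : 2 * (f + r) + n ≤ n * n) (h3 : (n - 1) * (n - 2) / 2 < f) :
    r + 2 ≤ n := by
  rcases n with - | m
  · omega
  · have e1 : (m + 1 - 1) * (m + 1 - 2) / 2 * 2 = m * (m - 1) := by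
      have : Even ((m + 1 - 1) * (m + 1 - 2)) := by
        have := Nat.even_mul_pred_self m
        simpa using this
      rw [Nat.div_mul_cancel this.two_dvd]
      simp
    have e2 : m * (m - 1) + m = m * m := by
      rcases m with - | j
      · rfl
      · simp; ring
    nlinarith

/-- many symbols give a partition, for a given model `V` of the vector space `F*/T` -/
theorem core {F : Type} [Field F] {T : Subgroup Fˣ} (hneg : (-1 : Fˣ) ∈ T) (n : ℕ)
    (hs : 2 ^ ((n - 1) * (n - 2) / 2) < Nat.card (Symbols F T))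
    (V : Type) [AddCommGroup V] [Module (ZMod 2) V] [Finite V] (hV : Nat.card V = 2 ^ n)
    (q : Fˣ → V) (hq : ∀ a b, q (a * b) = q a + q b) (hsur : Function.Surjective q)
    (hk : ∀ a, q a = 0 ↔ a ∈ T) :
    ∃ P : Set (Subgroup Fˣ), Pool.Agent.R675.TP.IsPart T P ∧
      (∀ x v : Fˣ, x ∉ T → (v : F) = 1 + x → ∀ K ∈ P, x ∈ K → v ∈ K) ∧
      ∀ K ∈ P, T.relIndex K ≠ 0 ∧
        T.relIndex K * Nat.card (Symbols F T) ≤ 2 ^ (n * (n - 1) / 2 + 1) := by
  have hdim : Module.finrank (ZMod 2) V = n := by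
    have h2 := Module.natCard_eq_pow_finrank (K := ZMod 2) (V := V)
    rw [Nat.card_zmod, hV] at h2
    exact (Nat.pow_right_injective le_rfl h2).symm
  have hcard : Nat.card (Symbols F T) =
      Nat.card {c : Fˣ → Fˣ → ZMod 2 // Pool.Agent.V7H51.NR.IsSy F T c} := by
    refine Nat.card_congr (Equiv.subtypeEquivRight fun c => ?_)
    exact ⟨fun h => ⟨⟨h.1, h.2.1, h.2.2.1⟩, h.2.2.2⟩,
      fun h => ⟨h.1.1, h.1.2, h.1.3, h.2⟩⟩
  have h1 := Pool.Agent.V7H51.NR.card_symbolsT hneg hq hsur hk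
  rw [← hcard] at h1
  set f := Module.finrank (ZMod 2) (Pool.Agent.N908.FR.Forms (ZMod 2) (Pool.Agent.N908.FR.Est q))
  set r := Module.finrank (ZMod 2)
    (Pool.Agent.N908.FR.Rel (k := ZMod 2) (Pool.Agent.N908.FR.Est q) ⊤) with hrdef
  have h2 : 2 * (f + r) + n ≤ n * n := Pool.Agent.N908.FR.forms_le hdim _
  have h3 : (n - 1) * (n - 2) / 2 < f :=
    (Nat.pow_lt_pow_iff_right one_lt_two).1 (hs.trans_le h1)
  have hr' : r + 2 ≤ Module.finrank (ZMod 2) V := by
    rw [hdim]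
    exact dim_le n f r h2 h3
  obtain ⟨P, hP1, hP2, hP3⟩ := Pool.Agent.V7H51.NR.mainT hq hsur hk hr'
  refine ⟨P, hP1, hP2, fun K hK => ⟨(hP3 K hK).1, (Nat.mul_le_mul (hP3 K hK).2 h1).trans ?_⟩⟩
  rw [← pow_add]
  refine Nat.pow_le_pow_right two_pos ?_
  have e3 : n * (n - 1) + n = n * n := by
    rcases n with - | j
    · rfl
    · simp; ring
  have e4 : f + r ≤ n * (n - 1) / 2 := by
    rw [Nat.le_div_iff_mul_le two_pos]
    omega
  omega

/-- many symbols give a partition -/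
theorem core' {F : Type} [Field F] {T : Subgroup Fˣ} (hsq : squares F ≤ T)
    (hneg : (-1 : Fˣ) ∈ T) (n : ℕ) (hn : T.index = 2 ^ n)
    (hs : 2 ^ ((n - 1) * (n - 2) / 2) < Nat.card (Symbols F T)) :
    ∃ P : Set (Subgroup Fˣ), Pool.Agent.R675.TP.IsPart T P ∧
      (∀ x v : Fˣ, x ∉ T → (v : F) = 1 + x → ∀ K ∈ P, x ∈ K → v ∈ K) ∧
      ∀ K ∈ P, T.relIndex K ≠ 0 ∧
        T.relIndex K * Nat.card (Symbols F T) ≤ 2 ^ (n * (n - 1) / 2 + 1) := by
  have hfin : T.index ≠ 0 := by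
    rw [hn]
    exact (pow_pos two_pos n).ne'
  let iG : AddCommGroup (Additive (Fˣ ⧸ T)) := inferInstance
  have hz : ∀ x : Additive (Fˣ ⧸ T), 2 • x = 0 := fun x => by
    obtain ⟨a, ha⟩ := QuotientGroup.mk_surjective (Additive.toMul x)
    have h1 : 2 • x = Additive.ofMul ((QuotientGroup.mk a : Fˣ ⧸ T) ^ 2) := by
      rw [ha]
      rfl
    rw [h1, ofMul_eq_zero, ← QuotientGroup.mk_pow, QuotientGroup.eq_one_iff]
    exact hsq ⟨a, rfl⟩
  let iM : Module (ZMod 2) (Additive (Fˣ ⧸ T)) := AddCommGroup.zmodModule hz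
  have hFin : Finite (Additive (Fˣ ⧸ T)) := by
    have : T.FiniteIndex := ⟨hfin⟩
    exact inferInstanceAs (Finite (Fˣ ⧸ T))
  refine core hneg n hs (Additive (Fˣ ⧸ T)) ?_
    (fun a => Additive.ofMul (QuotientGroup.mk a)) (fun a b => rfl) ?_ ?_
  · rw [← hn]
    rfl
  · intro x
    obtain ⟨a, ha⟩ := QuotientGroup.mk_surjective (Additive.toMul x)
    exact ⟨a, congrArg Additive.ofMul ha⟩
  · intro a
    change Additive.ofMul (QuotientGroup.mk a : Fˣ ⧸ T) = 0 ↔ _
    rw [ofMul_eq_zero, QuotientGroup.eq_one_iff]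

theorem result (F : Type) [Field F] (T : Subgroup Fˣ) (hsq : squares F ≤ T)
    (hneg : (-1 : Fˣ) ∈ T) (hfin : T.index ≠ 0) :
    -- partitions and valuation rings
    (T.index ≠ 2 → ((∃ O : ValuationSubring F, IsCompatible T O) ↔
      ∃ P : Set (Subgroup Fˣ), IsPartition T P ∧ RespectsSums T P)) ∧
    (∀ P : Set (Subgroup Fˣ), IsPartition T P → RespectsSums T P →
      ∃ K ∈ P, ∃ O : ValuationSubring F, O.unitGroup ≤ K ∧ IsCompatible T O ∧
        ((2 : F) ≠ 0 → T = squares F → (2 : F)⁻¹ ∈ O)) ∧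
    -- many symbols
    (∀ n : ℕ, T.index = 2 ^ n → 2 ^ ((n - 1) * (n - 2) / 2) < Nat.card (Symbols F T) →
      ∃ O : ValuationSubring F, IsCompatible T O ∧
        T.relIndex (O.unitGroup ⊔ T) * Nat.card (Symbols F T) ≤ 2 ^ (n * (n - 1) / 2 + 1) ∧
        ((2 : F) ≠ 0 → T = squares F → (2 : F)⁻¹ ∈ O)) ∧
    -- Galois groups
    ((2 : F) ≠ 0 → T = squares F →
      ((∃ P : Set (Subgroup Fˣ), IsPartition T P ∧ RespectsSums T P) ∨
        ∃ n : ℕ, T.index = 2 ^ n ∧ 2 ^ ((n - 1) * (n - 2) / 2) < Nat.card (Symbols F T)) →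
      ∀ K : IntermediateField F (AlgebraicClosure F), IsMaximalTwoExtension K →
        IsDecompositionGroup (⊤ : Subgroup (↥K ≃ₐ[F] ↥K)) ∧ ConclusionOfQ1 K) := by
  have hsq' : ∀ x : Fˣ, x * x ∈ T := fun x => hsq ⟨x, by simp [sq]⟩
  have hval : ∀ P : Set (Subgroup Fˣ), IsPartition T P → RespectsSums T P →
      ∃ K ∈ P, ∃ O : ValuationSubring F, O.unitGroup ≤ K ∧ IsCompatible T O ∧
        ((2 : F) ≠ 0 → T = squares F → (2 : F)⁻¹ ∈ O) := by
    intro P hP hs
    obtain ⟨K, hK, O, h1, h2, h3⟩ := Pool.Agent.V7H51.NR.val_of_part2 hsq' hneg hfin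
      ⟨hP.le, hP.ne_top, hP.cover, hP.inf⟩ hs
    refine ⟨K, hK, O, h1, ⟨h2, fun e => hP.ne_top K hK ?_⟩, fun h4 h5 => h3 h4 fun x => ?_⟩
    · rw [eq_top_iff, ← e]
      exact sup_le h1 (hP.le K hK)
    · rw [h5]
      exact ⟨fun ⟨y, hy⟩ => ⟨y, hy.symm⟩, fun ⟨y, hy⟩ => ⟨y, hy.symm⟩⟩
  have hsym : ∀ n : ℕ, T.index = 2 ^ n → 2 ^ ((n - 1) * (n - 2) / 2) < Nat.card (Symbols F T) →
      ∃ P : Set (Subgroup Fˣ), IsPartition T P ∧ RespectsSums T P ∧
      ∀ K ∈ P, T.relIndex K ≠ 0 ∧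
        T.relIndex K * Nat.card (Symbols F T) ≤ 2 ^ (n * (n - 1) / 2 + 1) := by
    intro n hn hs
    obtain ⟨P, hP, h1, h2⟩ := core' hsq hneg n hn hs
    exact ⟨P, ⟨hP.le, hP.ne_top, hP.cover, hP.inf⟩, h1, h2⟩
  refine ⟨fun hidx => ⟨?_, ?_⟩, hval, ?_, ?_⟩
  · rintro ⟨O, hO⟩
    obtain ⟨P, hP, h1⟩ := Pool.Agent.V7H51.NR.part_of_val2 hsq' hneg hidx O hO.one_add hO.ne_top
    exact ⟨P, ⟨hP.le, hP.ne_top, hP.cover, hP.inf⟩, h1⟩
  · rintro ⟨P, hP, hs⟩
    obtain ⟨-, -, O, -, hO, -⟩ := hval P hP hs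
    exact ⟨O, hO⟩
  · intro n hn hs
    obtain ⟨P, hP, h1, h2⟩ := hsym n hn hs
    obtain ⟨K, hK, O, hO1, hO2, hO3⟩ := hval P hP h1
    refine ⟨O, hO2, ?_, hO3⟩
    have hle : O.unitGroup ⊔ T ≤ K := sup_le hO1 (hP.le K hK)
    have h3 : T.relIndex (O.unitGroup ⊔ T) ≤ T.relIndex K := by
      have h4 := Subgroup.relIndex_mul_relIndex T (O.unitGroup ⊔ T) K le_sup_right hle
      refine Nat.le_of_dvd (Nat.pos_of_ne_zero (h2 K hK).1) ⟨_, h4.symm⟩
    exact (Nat.mul_le_mul_right _ h3).trans (h2 K hK).2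
  · intro h2 hT h K hK
    have hex : ∃ P : Set (Subgroup Fˣ), IsPartition T P ∧ RespectsSums T P := by
      rcases h with h | ⟨n, hn, hs⟩
      · exact h
      · obtain ⟨P, hP, h1, -⟩ := hsym n hn hs
        exact ⟨P, hP, h1⟩
    obtain ⟨P, hP, hs⟩ := hex
    obtain ⟨-, -, O, -, hO, hO2⟩ := hval P hP hs
    subst hT
    have hζ : ∃ ζ : F, IsPrimitiveRoot ζ 2 := by
      refine ⟨-1, IsPrimitiveRoot.mk_of_lt (-1) two_pos (by ring) fun l hl hl2 => ?_⟩
      obtain rfl : l = 1 := by omega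
      rw [pow_one]
      intro h
      apply h2
      have h3 : (1 : F) = -1 := h.symm
      calc (2 : F) = 1 + 1 := by norm_num
        _ = -1 + 1 := by rw [← h3]
        _ = 0 := by ring
    have hPw : Pw 2 O := by
      refine ⟨by exact_mod_cast hO2 h2 rfl, by exact_mod_cast h2, fun x hx hx' => ?_⟩
      obtain ⟨t, ⟨y, hy⟩, e⟩ := hO.one_add x hx hx'
      refine ⟨(y : F), ?_⟩
      rw [← e, ← hy]
      simp
    have hD : DecInert F K := Pool.Agent.V7H51.NR.gal_main 2 Nat.prime_two F hζ O hPw hO.ne_top K hK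
    refine ⟨?_, ?_⟩
    · obtain ⟨Γ, hΓ, w, hw, σ, hσ, hσw⟩ := hD
      exact ⟨Γ, hΓ, w, fun τ => ⟨fun _ x => hw τ x, fun _ => trivial⟩, σ, trivial, hσ, hσw⟩
    · obtain ⟨m, H, hc, hf, h3⟩ := efratP 2 F K hD
      exact ⟨m, H, hc, hf, fun i => (h3 i).imp_right (Or.imp_right And.right)⟩

end Pool.Agent.V7H51.NR.PartitionsTwo
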